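import Mathlib

/-!
Principal primes of residue degree one of a cyclotomic field: the prime `(p, z - a)` is generated by
every element `g` of it that divides `p` and `z - a`.
-/

namespace BKGen.Cyc

open NumberField Polynomial Ideal

variable {n : ℕ} [NeZero n] {K : Type*} [Field K] [NumberField K] [IsCyclotomicExtension {n} ℚ K]

/-- Every integer of `ℚ(ζ_n)` is congruent to a rational integer modulo `z - a`. -/
theorem exists_int_of_root {ζ : K} (hζ : IsPrimitiveRoot ζ n) (a : ℤ) (x : 𝓞 K) :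
    ∃ (m : ℤ) (t : 𝓞 K), x = m + (hζ.toInteger - a) * t := by
  have htop : Algebra.adjoin ℤ {hζ.toInteger} = ⊤ :=
    IsCyclotomicExtension.Rat.adjoin_singleton_eq_top hζ
  have hx : x ∈ Algebra.adjoin ℤ {hζ.toInteger} := by rw [htop]; trivial
  refine Algebra.adjoin_induction (p := fun x _ => ∃ (m : ℤ) (t : 𝓞 K),
    x = m + (hζ.toInteger - a) * t) ?_ ?_ ?_ ?_ hx
  · intro y hy
    rw [Set.mem_singleton_iff.mp hy]
    exact ⟨a, 1, by ring⟩
  · intro r
    exact ⟨r, 0, by simp⟩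
  · rintro u v - - ⟨m, t, rfl⟩ ⟨m', t', rfl⟩
    exact ⟨m + m', t + t', by push_cast; ring⟩
  · rintro u v - - ⟨m, t, rfl⟩ ⟨m', t', rfl⟩
    exact ⟨m * m', t * m' + m * t' + (hζ.toInteger - a) * t * t', by push_cast; ring⟩

/-- A root of the cyclotomic polynomial modulo `p` gives a ring homomorphism to `𝔽_p`. -/
theorem exists_hom {ζ : K} (hζ : IsPrimitiveRoot ζ n) {p : ℕ} [Fact p.Prime] (a : ℤ)
    (ha : (cyclotomic n (ZMod p)).eval (a : ZMod p) = 0) :
    ∃ φ : 𝓞 K →+* ZMod p, φ hζ.toInteger = a := by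
  have h0 : aeval (a : ZMod p) (minpoly ℤ hζ.integralPowerBasis.gen) = 0 := by
    have h1 : minpoly ℤ hζ.toInteger = cyclotomic n ℤ := by
      rw [← RingOfIntegers.minpoly_coe, cyclotomic_eq_minpoly hζ (NeZero.pos n)]
      rfl
    rw [hζ.integralPowerBasis_gen, h1, aeval_def, eval₂_eq_eval_map, map_cyclotomic]
    exact ha
  refine ⟨(hζ.integralPowerBasis.lift (a : ZMod p) h0 : 𝓞 K →ₐ[ℤ] ZMod p), ?_⟩
  have := hζ.integralPowerBasis.lift_gen (a : ZMod p) h0
  rw [hζ.integralPowerBasis_gen] at this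
  exact this

/-- The prime `(p, z - a)` is principal as soon as one of its elements divides `p` and `z - a`. -/
theorem exists_principal {ζ : K} (hζ : IsPrimitiveRoot ζ n) {p : ℕ} [Fact p.Prime] (a : ℤ)
    (φ : 𝓞 K →+* ZMod p) (hφ : φ hζ.toInteger = a) {g h₁ h₂ : 𝓞 K} (hg : φ g = 0)
    (e₁ : g * h₁ = p) (e₂ : g * h₂ = hζ.toInteger - a) :
    ∃ P ∈ primesOver (span {(p : ℤ)}) (𝓞 K), Submodule.IsPrincipal P := by
  have hprime : (RingHom.ker φ).IsPrime := RingHom.ker_isPrime φ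
  refine ⟨RingHom.ker φ, ⟨hprime, ?_⟩, ⟨g, ?_⟩⟩
  · rw [Ideal.liesOver_iff]
    ext m
    rw [Ideal.mem_comap, RingHom.mem_ker, algebraMap_int_eq, eq_intCast, map_intCast,
      ZMod.intCast_zmod_eq_zero_iff_dvd, Ideal.mem_span_singleton]
  · rw [Ideal.submodule_span_eq]
    apply le_antisymm
    · intro x hx
      rw [Ideal.mem_span_singleton]
      obtain ⟨m, t, rfl⟩ := exists_int_of_root hζ a x
      rw [RingHom.mem_ker, map_add, map_mul, map_sub, hφ, map_intCast, map_intCast, sub_self,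
        zero_mul, add_zero, ZMod.intCast_zmod_eq_zero_iff_dvd] at hx
      obtain ⟨k, rfl⟩ := hx
      refine ⟨h₁ * k + h₂ * t, ?_⟩
      push_cast
      rw [← e₁, ← e₂]
      ring
    · rw [Ideal.span_singleton_le_iff_mem]
      exact hg

end BKGen.Cyc
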