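import Pool.Agent.Lib.MP_7c08ba_nt.Cyc.ClassAux

/-!
The ring of integers of `ℚ(ζ_20)` is a principal ideal domain.
-/

namespace BKGen.Cyc

open NumberField Polynomial Ideal

/-- The equation of a primitive twentieth root of unity. -/
theorem eqn_twenty {R : Type*} [CommRing R] [IsDomain R] {z : R} (hz : IsPrimitiveRoot z 20) :
    z ^ 8 - z ^ 6 + z ^ 4 - z ^ 2 + 1 = 0 := by
  have h1 : z ^ 10 ≠ 1 := hz.pow_ne_one_of_pos_of_lt (by norm_num) (by norm_num)
  have h2 : z ^ 4 ≠ 1 := hz.pow_ne_one_of_pos_of_lt (by norm_num) (by norm_num)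
  have h3 : (z ^ 10 - 1) * (z ^ 10 + 1) = 0 := by
    linear_combination hz.pow_eq_one
  have h4 : (z ^ 2 + 1) * (z ^ 8 - z ^ 6 + z ^ 4 - z ^ 2 + 1) = 0 := by
    linear_combination (mul_eq_zero.mp h3).resolve_left (sub_ne_zero.mpr h1)
  refine (mul_eq_zero.mp h4).resolve_left fun h => h2 ?_
  linear_combination (z ^ 2 - 1) * h

theorem prim_two_five : IsPrimitiveRoot ((2 : ℤ) : ZMod 5) 4 :=
  IsPrimitiveRoot.mk_of_lt _ (by norm_num) (by decide)
    fun l h0 h1 => by interval_cases l <;> decide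

theorem four_ne_five : ((4 : ℕ) : ZMod 5) ≠ 0 := by decide

theorem val_five : (1 : ZMod 5) + ((2 : ℤ) : ZMod 5) - ((2 : ℤ) : ZMod 5) ^ 3 = 0 := by decide

variable (K : Type*) [Field K] [NumberField K]

theorem exists_principal_five [IsCyclotomicExtension {20} ℚ K] :
    ∃ P ∈ primesOver (span {((5 : ℕ) : ℤ)}) (𝓞 K), Submodule.IsPrincipal P := by
  have : Fact (Nat.Prime 5) := ⟨by norm_num⟩
  have hζ := IsCyclotomicExtension.zeta_spec 20 ℚ K
  have : NeZero ((4 : ℕ) : ZMod 5) := ⟨four_ne_five⟩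
  have ha : (cyclotomic 20 (ZMod 5)).eval ((2 : ℤ) : ZMod 5) = 0 := by
    have := (isRoot_cyclotomic_prime_pow_mul_iff_of_charP (m := 4) (k := 1) (p := 5)
      (R := ZMod 5) (μ := ((2 : ℤ) : ZMod 5))).mpr prim_two_five
    exact this
  obtain ⟨φ, hφ⟩ := exists_hom hζ (p := 5) 2 ha
  set z := hζ.toInteger with hzdef
  have hz := eqn_twenty hζ.toInteger_isPrimitiveRoot
  rw [← hzdef] at hz
  refine exists_principal hζ (p := 5) 2 φ hφ (g := 1 + z - z ^ 3)
    (h₁ := 2 + z + z ^ 2 - 2 * z ^ 3 + z ^ 4 + 3 * z ^ 5 - 3 * z ^ 6 + z ^ 7)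
    (h₂ := -1 + z ^ 3 - z ^ 4 - z ^ 5 + 2 * z ^ 6 - z ^ 7) ?_ ?_ ?_
  · rw [map_sub, map_add, map_one, map_pow, hφ]
    exact val_five
  · push_cast
    linear_combination (-3 + 3 * z - z ^ 2) * hz
  · push_cast
    linear_combination (1 - 2 * z + z ^ 2) * hz

theorem minkowski_twenty [IsCyclotomicExtension {20} ℚ K] :
    ⌊(4 / Real.pi) ^ InfinitePlace.nrComplexPlaces K *
      ((Module.finrank ℚ K).factorial / (Module.finrank ℚ K : ℝ) ^ (Module.finrank ℚ K) *
        √|(discr K : ℝ)|)⌋₊ < 13 := by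
  have hd : |(discr K : ℝ)| = 2000 ^ 2 := by
    have h := IsCyclotomicExtension.Rat.natAbs_discr 20 (K := K)
    rw [← Int.cast_abs, Int.abs_eq_natAbs, h]
    have h2 : Nat.totient 20 = 8 := by decide
    have h3 : (20 : ℕ).primeFactors = {2, 5} := by
      rw [show (20 : ℕ) = 2 ^ 2 * 5 by norm_num, Nat.primeFactors_mul (by norm_num) (by norm_num),
        Nat.primeFactors_prime_pow (by norm_num) (by norm_num),
        Nat.Prime.primeFactors (by norm_num)]
      rfl
    rw [h2, h3, Finset.prod_pair (by norm_num)]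
    norm_num
  have hr : Module.finrank ℚ K = 8 := by
    rw [IsCyclotomicExtension.finrank (n := 20) K (cyclotomic.irreducible_rat (by norm_num))]
    decide
  have hc : InfinitePlace.nrComplexPlaces K = 4 := by
    rw [IsCyclotomicExtension.Rat.nrComplexPlaces_eq_totient_div_two 20 K]
    decide
  rw [hr, hc, hd, Real.sqrt_sq (by norm_num), Nat.floor_lt (by positivity)]
  have hpi : 4 / Real.pi < 4 / 3.14 := by
    gcongr
    exact Real.pi_gt_d2
  have h0 : 0 < 4 / Real.pi := by positivity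
  calc (4 / Real.pi) ^ 4 * (((8 : ℕ).factorial : ℝ) / ((8 : ℕ) : ℝ) ^ 8 * 2000)
      ≤ (4 / 3.14) ^ 4 * (((8 : ℕ).factorial : ℝ) / ((8 : ℕ) : ℝ) ^ 8 * 2000) := by
        gcongr
    _ < ((13 : ℕ) : ℝ) := by
        rw [show (8 : ℕ).factorial = 40320 from rfl]
        norm_num

/-- The ring of integers of `ℚ(ζ_20)` is a principal ideal domain. -/
theorem isPrincipalIdealRing_twenty [IsCyclotomicExtension {20} ℚ K] :
    IsPrincipalIdealRing (𝓞 K) := by
  have hgal : IsGalois ℚ K := IsCyclotomicExtension.isGalois {20} ℚ K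
  apply
    RingOfIntegers.isPrincipalIdealRing_of_isPrincipal_of_lt_or_isPrincipal_of_mem_primesOver_of_mem_Icc
  intro p hp hpp
  have hM := minkowski_twenty K
  rw [Finset.mem_Icc] at hp
  have hp13 : p < 13 := lt_of_le_of_lt hp.2 hM
  have : Fact p.Prime := ⟨hpp⟩
  by_cases h5 : p = 5
  · subst h5
    obtain ⟨P, hP, hP'⟩ := exists_principal_five K
    exact ⟨P, hP, Or.inr hP'⟩
  obtain ⟨⟨P, hP1, hP2⟩⟩ := (span {(p : ℤ)}).nonempty_primesOver (S := 𝓞 K)
  refine ⟨P, ⟨hP1, hP2⟩, Or.inl (hM.trans_le ?_)⟩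
  by_cases h2 : p = 2
  · subst h2
    have h := IsCyclotomicExtension.Rat.inertiaDeg_eq (n := 20) (m := 5) (p := 2) (k := 1) K P
      (by norm_num) (by norm_num)
    have h1 := pow_orderOf_eq_one ((2 : ℕ) : ZMod 5)
    rw [← h] at h1
    have h0 := Ideal.inertiaDeg_pos P ℤ
    by_contra hlt
    have h4 : P.inertiaDeg ℤ < 4 := by
      by_contra h4
      exact hlt (le_trans (by norm_num) (Nat.pow_le_pow_right (n := 2) (by norm_num) (not_lt.mp h4)))
    interval_cases P.inertiaDeg ℤ <;> exact absurd h1 (by decide)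
  · have h3 : ¬ p ∣ 20 := by
      intro h
      have := hpp.two_le
      interval_cases p <;> first | omega | (norm_num at hpp)
    have h := IsCyclotomicExtension.Rat.inertiaDeg_eq_of_not_dvd (m := 20) p K P h3
    have h1 := pow_orderOf_eq_one (p : ZMod 20)
    rw [← h] at h1
    have h0 := Ideal.inertiaDeg_pos P ℤ
    by_contra hlt
    have h4 : P.inertiaDeg ℤ < 4 := by
      by_contra h4
      refine hlt (le_trans (b := 2 ^ 4) (by norm_num) (le_trans (Nat.pow_le_pow_left hpp.two_le 4)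
        (Nat.pow_le_pow_right hpp.pos (not_lt.mp h4))))
    have := hpp.two_le
    generalize P.inertiaDeg ℤ = f at *
    clear h hP1 hP2 hM this
    interval_cases p <;> first | omega | (norm_num at hpp; done) | (interval_cases f <;>
      first | omega | exact absurd h1 (by decide))

end BKGen.Cyc
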