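import Pool.Agent.Lib.MP_7c08ba_nt.Cyc.ClassAux

/-!
The ring of integers of `ℚ(ζ_21)` is a principal ideal domain.
-/

namespace BKGen.Cyc

open NumberField Polynomial Ideal

/-- The equation of a primitive 21st root of unity. -/
theorem eqn_twentyOne {R : Type*} [CommRing R] [IsDomain R] {z : R} (hz : IsPrimitiveRoot z 21) :
    z ^ 12 - z ^ 11 + z ^ 9 - z ^ 8 + z ^ 6 - z ^ 4 + z ^ 3 - z + 1 = 0 := by
  have h1 : z ^ 7 ≠ 1 := hz.pow_ne_one_of_pos_of_lt (by norm_num) (by norm_num)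
  have h2 : z ^ 3 ≠ 1 := hz.pow_ne_one_of_pos_of_lt (by norm_num) (by norm_num)
  have h3 : (z ^ 7 - 1) * (z ^ 14 + z ^ 7 + 1) = 0 := by
    linear_combination hz.pow_eq_one
  have h4 : (z ^ 2 + z + 1) *
      (z ^ 12 - z ^ 11 + z ^ 9 - z ^ 8 + z ^ 6 - z ^ 4 + z ^ 3 - z + 1) = 0 := by
    linear_combination (mul_eq_zero.mp h3).resolve_left (sub_ne_zero.mpr h1)
  refine (mul_eq_zero.mp h4).resolve_left fun h => h2 ?_
  linear_combination (z - 1) * h

theorem prim_two_seven : IsPrimitiveRoot ((2 : ℤ) : ZMod 7) 3 :=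
  IsPrimitiveRoot.mk_of_lt _ (by norm_num) (by decide)
    fun l h0 h1 => by interval_cases l <;> decide

theorem three_ne_seven : ((3 : ℕ) : ZMod 7) ≠ 0 := by decide

theorem val_seven : (1 : ZMod 7) - ((2 : ℤ) : ZMod 7) + ((2 : ℤ) : ZMod 7) ^ 3 = 0 := by decide

theorem prim_fortyThree : IsPrimitiveRoot ((38 : ℤ) : ZMod 43) 21 :=
  IsPrimitiveRoot.mk_of_lt _ (by norm_num) (by decide)
    fun l h0 h1 => by interval_cases l <;> decide

theorem twentyOne_ne_fortyThree : ((21 : ℕ) : ZMod 43) ≠ 0 := by decide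

theorem val_fortyThree :
    (1 : ZMod 43) + ((38 : ℤ) : ZMod 43) + ((38 : ℤ) : ZMod 43) ^ 3 = 0 := by decide

variable (K : Type*) [Field K] [NumberField K]

theorem exists_principal_seven [IsCyclotomicExtension {21} ℚ K] :
    ∃ P ∈ primesOver (span {((7 : ℕ) : ℤ)}) (𝓞 K), Submodule.IsPrincipal P := by
  have : Fact (Nat.Prime 7) := ⟨by norm_num⟩
  have hζ := IsCyclotomicExtension.zeta_spec 21 ℚ K
  have : NeZero ((3 : ℕ) : ZMod 7) := ⟨three_ne_seven⟩
  have ha : (cyclotomic 21 (ZMod 7)).eval ((2 : ℤ) : ZMod 7) = 0 := by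
    have := (isRoot_cyclotomic_prime_pow_mul_iff_of_charP (m := 3) (k := 1) (p := 7)
      (R := ZMod 7) (μ := ((2 : ℤ) : ZMod 7))).mpr prim_two_seven
    exact this
  obtain ⟨φ, hφ⟩ := exists_hom hζ (p := 7) 2 ha
  set z := hζ.toInteger with hzdef
  have hz := eqn_twentyOne hζ.toInteger_isPrimitiveRoot
  rw [← hzdef] at hz
  refine exists_principal hζ (p := 7) 2 φ hφ (g := 1 - z + z ^ 3)
    (h₁ := 8 - 4 * z - 2 * z ^ 2 - 8 * z ^ 4 - 4 * z ^ 5 + 6 * z ^ 6 + 3 * z ^ 7 - 3 * z ^ 8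
      + 3 * z ^ 9 - 2 * z ^ 10 - 9 * z ^ 11)
    (h₂ := -1 + z + z ^ 3 + z ^ 4 - z ^ 6 + z ^ 10 + z ^ 11) ?_ ?_ ?_
  · rw [map_add, map_sub, map_one, map_pow, hφ]
    exact val_seven
  · push_cast
    linear_combination (1 - 11 * z - 9 * z ^ 2) * hz
  · push_cast
    linear_combination (1 + 2 * z + z ^ 2) * hz

theorem exists_principal_fortyThree [IsCyclotomicExtension {21} ℚ K] :
    ∃ P ∈ primesOver (span {((43 : ℕ) : ℤ)}) (𝓞 K), Submodule.IsPrincipal P := by
  have : Fact (Nat.Prime 43) := ⟨by norm_num⟩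
  have hζ := IsCyclotomicExtension.zeta_spec 21 ℚ K
  have : NeZero ((21 : ℕ) : ZMod 43) := ⟨twentyOne_ne_fortyThree⟩
  have ha : (cyclotomic 21 (ZMod 43)).eval ((38 : ℤ) : ZMod 43) = 0 := by
    have := (isRoot_cyclotomic_iff (n := 21) (R := ZMod 43)
      (μ := ((38 : ℤ) : ZMod 43))).mpr prim_fortyThree
    exact this
  obtain ⟨φ, hφ⟩ := exists_hom hζ (p := 43) 38 ha
  set z := hζ.toInteger with hzdef
  have hz := eqn_twentyOne hζ.toInteger_isPrimitiveRoot
  rw [← hzdef] at hz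
  refine exists_principal hζ (p := 43) 38 φ hφ (g := 1 + z + z ^ 3)
    (h₁ := 22 + 8 * z - 36 * z ^ 2 + 12 * z ^ 3 + 10 * z ^ 4 - 2 * z ^ 5 - 12 * z ^ 6 + 11 * z ^ 7
      - 7 * z ^ 8 - 11 * z ^ 9 + 28 * z ^ 10 - 19 * z ^ 11)
    (h₂ := -19 - 7 * z + 32 * z ^ 2 - 11 * z ^ 3 - 9 * z ^ 4 + 2 * z ^ 5 + 11 * z ^ 6 - 10 * z ^ 7
      + 6 * z ^ 8 + 10 * z ^ 9 - 25 * z ^ 10 + 17 * z ^ 11) ?_ ?_ ?_
  · rw [map_add, map_add, map_one, map_pow, hφ]
    exact val_fortyThree
  · push_cast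
    linear_combination (-21 + 9 * z - 19 * z ^ 2) * hz
  · push_cast
    linear_combination (19 - 8 * z + 17 * z ^ 2) * hz

variable {K} in
/-- If `e * e' = 2` with conjugate factors, a prime above `2` of norm `64` is generated by `e` or
by `e'`. -/
theorem span_of_conj (hr : Module.finrank ℚ K = 12) (c : K ≃ₐ[ℚ] K) {e e' : 𝓞 K}
    (hc : c (e : K) = (e' : K)) (h2 : e * e' = 2) :
    absNorm (span {e}) = 64 ∧ absNorm (span {e'}) = 64 := by
  have h1 : absNorm (span {e}) * absNorm (span {e'}) = 64 * 64 := by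
    rw [← map_mul, Ideal.span_singleton_mul_span_singleton, h2, Ideal.absNorm_span_singleton]
    have h3 : ((2 : 𝓞 K)) = algebraMap ℤ (𝓞 K) 2 := by simp
    rw [h3, Algebra.norm_algebraMap, RingOfIntegers.rank, hr]
    norm_num
  have h4 : absNorm (span {e'}) = absNorm (span {e}) := by
    rw [Ideal.absNorm_span_singleton, Ideal.absNorm_span_singleton]
    congr 1
    have h5 : (algebraMap ℤ ℚ) (Algebra.norm ℤ e') = (algebraMap ℤ ℚ) (Algebra.norm ℤ e) := by
      rw [eq_intCast, eq_intCast, Algebra.coe_norm_int, Algebra.coe_norm_int, ← hc,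
        Algebra.norm_eq_of_algEquiv]
    exact (algebraMap ℤ ℚ).injective_int h5
  rw [h4] at h1 ⊢
  have := Nat.mul_self_inj.mp h1
  exact ⟨this, this⟩

/-- A prime above `2` is principal. -/
theorem exists_principal_two [IsCyclotomicExtension {21} ℚ K] :
    ∃ P ∈ primesOver (span {((2 : ℕ) : ℤ)}) (𝓞 K), Submodule.IsPrincipal P := by
  have hζ := IsCyclotomicExtension.zeta_spec 21 ℚ K
  have hirr : Irreducible (cyclotomic 21 ℚ) := cyclotomic.irreducible_rat (by norm_num)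
  have hr : Module.finrank ℚ K = 12 := by
    rw [IsCyclotomicExtension.finrank (n := 21) K hirr]
    decide
  set z := hζ.toInteger with hzdef
  have hz := eqn_twentyOne hζ.toInteger_isPrimitiveRoot
  rw [← hzdef] at hz
  have hμ : IsPrimitiveRoot (IsCyclotomicExtension.zeta 21 ℚ K ^ 20) 21 :=
    hζ.pow_of_coprime 20 (by norm_num)
  obtain ⟨c, hc⟩ : ∃ c : K ≃ₐ[ℚ] K, c (IsCyclotomicExtension.zeta 21 ℚ K) =
      IsCyclotomicExtension.zeta 21 ℚ K ^ 20 :=
    ⟨IsCyclotomicExtension.fromZetaAut hμ hirr, IsCyclotomicExtension.fromZetaAut_spec hμ hirr⟩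
  have hz21 : (IsCyclotomicExtension.zeta 21 ℚ K) ^ 21 = 1 := hζ.pow_eq_one
  have hcoe : algebraMap (𝓞 K) K z = IsCyclotomicExtension.zeta 21 ℚ K := rfl
  obtain ⟨h1, h2⟩ := span_of_conj hr c (e := z ^ 3 + z ^ 6 + z ^ 12) (e' := z ^ 9 + z ^ 15 + z ^ 18)
    (by
      change c (algebraMap (𝓞 K) K _) = algebraMap (𝓞 K) K _
      simp only [map_add, map_pow, hcoe, hc]
      generalize IsCyclotomicExtension.zeta 21 ℚ K = y at hz21
      have e1 : (y ^ 20) ^ 3 = y ^ 18 := by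
        rw [← pow_mul]
        calc y ^ (20 * 3) = (y ^ 21) ^ 2 * y ^ 18 := by ring
          _ = _ := by rw [hz21]; ring
      have e2 : (y ^ 20) ^ 6 = y ^ 15 := by
        rw [← pow_mul]
        calc y ^ (20 * 6) = (y ^ 21) ^ 5 * y ^ 15 := by ring
          _ = _ := by rw [hz21]; ring
      have e3 : (y ^ 20) ^ 12 = y ^ 9 := by
        rw [← pow_mul]
        calc y ^ (20 * 12) = (y ^ 21) ^ 11 * y ^ 9 := by ring
          _ = _ := by rw [hz21]; ring
      rw [e1, e2, e3]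
      ring)
    (by
      linear_combination (-2 - 2 * z - 2 * z ^ 2 + 2 * z ^ 7 + 2 * z ^ 8 + 2 * z ^ 9 + z ^ 12
        + z ^ 13 + z ^ 14 + z ^ 15 + z ^ 16 + z ^ 17 + z ^ 18) * hz)
  have hmul : (z ^ 3 + z ^ 6 + z ^ 12) * (z ^ 9 + z ^ 15 + z ^ 18) = 2 := by
    linear_combination (-2 - 2 * z - 2 * z ^ 2 + 2 * z ^ 7 + 2 * z ^ 8 + 2 * z ^ 9 + z ^ 12
      + z ^ 13 + z ^ 14 + z ^ 15 + z ^ 16 + z ^ 17 + z ^ 18) * hz
  obtain ⟨⟨P, hP1, hP2⟩⟩ := (span {((2 : ℕ) : ℤ)}).nonempty_primesOver (S := 𝓞 K)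
  refine ⟨P, ⟨hP1, hP2⟩, ?_⟩
  have : Fact (Nat.Prime 2) := ⟨Nat.prime_two⟩
  have h := IsCyclotomicExtension.Rat.inertiaDeg_eq_of_not_dvd (m := 21) 2 K P (by norm_num)
  have ho : orderOf ((2 : ℕ) : ZMod 21) = 6 := by
    rw [orderOf_eq_iff (by norm_num)]
    refine ⟨by decide, fun m hm h0 => ?_⟩
    interval_cases m <;> decide
  have hN : absNorm P = 64 := by
    rw [← Ideal.pow_inertiaDeg 2 P, h, ho]
    norm_num
  have h2P : (2 : 𝓞 K) ∈ P := by
    have := Ideal.over_def P (span {((2 : ℕ) : ℤ)})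
    have h3 : ((2 : ℕ) : ℤ) ∈ P.under ℤ := by
      rw [← this]
      exact Ideal.mem_span_singleton_self _
    simpa using h3
  have key : ∀ e : 𝓞 K, absNorm (span {e}) = 64 → e ∈ P → Submodule.IsPrincipal P := by
    intro e he heP
    have hle : span {e} ≤ P := by rwa [Ideal.span_singleton_le_iff_mem]
    obtain ⟨Q, hQ⟩ := Ideal.dvd_iff_le.mpr hle
    have h4 := congrArg absNorm hQ
    rw [map_mul, he, hN] at h4
    have h5 : absNorm Q = 1 := by omega
    rw [Ideal.absNorm_eq_one_iff] at h5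
    rw [h5, Ideal.mul_top] at hQ
    rw [← hQ]
    exact ⟨e, rfl⟩
  rw [← hmul] at h2P
  rcases hP1.mem_or_mem h2P with h3 | h3
  · exact key _ h1 h3
  · exact key _ h2 h3

theorem minkowski_twentyOne [IsCyclotomicExtension {21} ℚ K] :
    ⌊(4 / Real.pi) ^ InfinitePlace.nrComplexPlaces K *
      ((Module.finrank ℚ K).factorial / (Module.finrank ℚ K : ℝ) ^ (Module.finrank ℚ K) *
        √|(discr K : ℝ)|)⌋₊ < 106 := by
  have hd : |(discr K : ℝ)| = 453789 ^ 2 := by
    have h := IsCyclotomicExtension.Rat.natAbs_discr 21 (K := K)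
    rw [← Int.cast_abs, Int.abs_eq_natAbs, h]
    have h2 : Nat.totient 21 = 12 := by decide
    have h3 : (21 : ℕ).primeFactors = {3, 7} := by
      rw [show (21 : ℕ) = 3 * 7 by norm_num, Nat.primeFactors_mul (by norm_num) (by norm_num),
        Nat.Prime.primeFactors (by norm_num), Nat.Prime.primeFactors (by norm_num)]
      rfl
    rw [h2, h3, Finset.prod_pair (by norm_num)]
    norm_num
  have hr : Module.finrank ℚ K = 12 := by
    rw [IsCyclotomicExtension.finrank (n := 21) K (cyclotomic.irreducible_rat (by norm_num))]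
    decide
  have hc : InfinitePlace.nrComplexPlaces K = 6 := by
    rw [IsCyclotomicExtension.Rat.nrComplexPlaces_eq_totient_div_two 21 K]
    decide
  rw [hr, hc, hd, Real.sqrt_sq (by norm_num), Nat.floor_lt (by positivity)]
  have hpi : 4 / Real.pi < 4 / 3.14 := by
    gcongr
    exact Real.pi_gt_d2
  have h0 : 0 < 4 / Real.pi := by positivity
  calc (4 / Real.pi) ^ 6 * (((12 : ℕ).factorial : ℝ) / ((12 : ℕ) : ℝ) ^ 12 * 453789)
      ≤ (4 / 3.14) ^ 6 * (((12 : ℕ).factorial : ℝ) / ((12 : ℕ) : ℝ) ^ 12 * 453789) := by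
        gcongr
    _ < ((106 : ℕ) : ℝ) := by
        rw [show (12 : ℕ).factorial = 479001600 from rfl]
        norm_num

/-- Primes with small residue field. -/
theorem small_primes {p f : ℕ} (hp : p.Prime) (hp106 : p < 106) (hf : 0 < f) (hlt : p ^ f < 106)
    (h2 : p ≠ 2) (h7 : p ≠ 7) (h43 : p ≠ 43) (h3 : p ≠ 3) (h1 : (p : ZMod 21) ^ f = 1) : False := by
  have hp5 : 5 ≤ p := by
    have := hp.two_le
    by_contra h
    interval_cases p <;> first | omega | (norm_num at hp)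
  by_cases hf1 : f = 1
  · subst hf1
    rw [pow_one] at h1
    have h4 : p % 21 = 1 := by
      have : ((p : ℕ) : ZMod 21) = ((1 : ℕ) : ZMod 21) := by rw [h1]; simp
      rw [ZMod.natCast_eq_natCast_iff'] at this
      exact this
    have h5 : p = 1 ∨ p = 22 ∨ p = 43 ∨ p = 64 ∨ p = 85 := by omega
    rcases h5 with rfl | rfl | rfl | rfl | rfl
    · omega
    · norm_num at hp
    · omega
    · norm_num at hp
    · norm_num at hp
  · have h4 : p ^ 2 < 106 := lt_of_le_of_lt (Nat.pow_le_pow_right hp.pos (by omega)) hlt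
    have h5 : p ≤ 10 := by nlinarith
    have h6 : p = 5 := by
      interval_cases p <;> first | omega | (norm_num at hp)
    subst h6
    have h7 : f < 3 := by
      by_contra h8
      have := Nat.pow_le_pow_right (n := 5) (by norm_num) (not_lt.mp h8)
      omega
    have h8 : f = 2 := by omega
    subst h8
    exact absurd h1 (by decide)

/-- The ring of integers of `ℚ(ζ_21)` is a principal ideal domain. -/
theorem isPrincipalIdealRing_twentyOne [IsCyclotomicExtension {21} ℚ K] :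
    IsPrincipalIdealRing (𝓞 K) := by
  have hgal : IsGalois ℚ K := IsCyclotomicExtension.isGalois {21} ℚ K
  apply
    RingOfIntegers.isPrincipalIdealRing_of_isPrincipal_of_lt_or_isPrincipal_of_mem_primesOver_of_mem_Icc
  intro p hp hpp
  have hM := minkowski_twentyOne K
  rw [Finset.mem_Icc] at hp
  have hp106 : p < 106 := lt_of_le_of_lt hp.2 hM
  have : Fact p.Prime := ⟨hpp⟩
  by_cases h7 : p = 7
  · subst h7
    obtain ⟨P, hP, hP'⟩ := exists_principal_seven K
    exact ⟨P, hP, Or.inr hP'⟩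
  by_cases h43 : p = 43
  · subst h43
    obtain ⟨P, hP, hP'⟩ := exists_principal_fortyThree K
    exact ⟨P, hP, Or.inr hP'⟩
  by_cases h2 : p = 2
  · subst h2
    obtain ⟨P, hP, hP'⟩ := exists_principal_two K
    exact ⟨P, hP, Or.inr hP'⟩
  obtain ⟨⟨P, hP1, hP2⟩⟩ := (span {(p : ℤ)}).nonempty_primesOver (S := 𝓞 K)
  refine ⟨P, ⟨hP1, hP2⟩, Or.inl (hM.trans_le ?_)⟩
  by_cases h3 : p = 3
  · subst h3
    have h := IsCyclotomicExtension.Rat.inertiaDeg_eq (n := 21) (m := 7) (p := 3) (k := 0) K P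
      (by norm_num) (by norm_num)
    have h1 := pow_orderOf_eq_one ((3 : ℕ) : ZMod 7)
    rw [← h] at h1
    have h0 := Ideal.inertiaDeg_pos P ℤ
    by_contra hlt
    have h4 : P.inertiaDeg ℤ < 5 := by
      by_contra h4
      exact hlt (le_trans (by norm_num) (Nat.pow_le_pow_right (n := 3) (by norm_num) (not_lt.mp h4)))
    interval_cases P.inertiaDeg ℤ <;> exact absurd h1 (by decide)
  · have h21 : ¬ p ∣ 21 := by
      intro h
      rw [show (21 : ℕ) = 3 * 7 by norm_num, hpp.dvd_mul, Nat.prime_dvd_prime_iff_eq hpp (by norm_num),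
        Nat.prime_dvd_prime_iff_eq hpp (by norm_num)] at h
      omega
    have h := IsCyclotomicExtension.Rat.inertiaDeg_eq_of_not_dvd (m := 21) p K P h21
    have h1 := pow_orderOf_eq_one (p : ZMod 21)
    rw [← h] at h1
    have h0 := Ideal.inertiaDeg_pos P ℤ
    by_contra hlt
    exact small_primes hpp hp106 h0 (not_le.mp hlt) h2 h7 h43 h3 h1

end BKGen.Cyc
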