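import Pool.Agent.Lib.MP_7c08ba_nt.Cyc.Lev
import Pool.Agent.Lib.MP_7c08ba_nt.Gen.RT.Emb

/-!
A criterion for rigidity: class number prime to `p` and enough explicit `S`-units.
-/

namespace BKGen
namespace Cyc

open NumberField IntermediateField NumberField.Units BKGen.RT

lemma zpow_sum₀' {K : Type*} [Field K] {α : Type*} (s : Finset α) {g : K} (hg : g ≠ 0)
    (f : α → ℤ) : ∏ k ∈ s, g ^ f k = g ^ ∑ k ∈ s, f k := by
  classical
  induction s using Finset.induction_on with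
  | empty => simp
  | insert a s ha ih => rw [Finset.prod_insert ha, Finset.sum_insert ha, ih, zpow_add₀ hg]

/-- more elements than generators: a relation modulo `p`-th powers -/
theorem exists_relation {p : ℕ} [Fact p.Prime] {K : Type*} [Field K] {m n : ℕ} (hmn : m < n)
    (γ : Fin m → K) (hγ : ∀ i, γ i ≠ 0) (x : Fin n → K) (E : Fin n → Fin m → ℤ)
    (hx : ∀ k, x k = ∏ i, γ i ^ E k i) :
    ∃ c : Fin n → ℕ, (∃ k, ¬ p ∣ c k) ∧ ∃ b : K, ∏ k, x k ^ c k = b ^ p := by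
  have hp : p.Prime := Fact.out
  let V : Fin n → (Fin m → ZMod p) := fun k i => (E k i : ZMod p)
  have hV : ¬ LinearIndependent (ZMod p) V := by
    intro h
    have := h.fintype_card_le_finrank
    simp only [Fintype.card_fin, Module.finrank_fintype_fun_eq_card] at this
    omega
  rw [Fintype.not_linearIndependent_iff] at hV
  obtain ⟨g, hg, k, hk⟩ := hV
  refine ⟨fun k => (g k).val, ⟨k, ?_⟩, ?_⟩
  · intro hd
    apply hk
    have h1 : ((g k).val : ZMod p) = 0 := (ZMod.natCast_eq_zero_iff _ _).mpr hd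
    rwa [ZMod.natCast_zmod_val] at h1
  · have h1 : ∀ i, (p : ℤ) ∣ ∑ k, E k i * ((g k).val : ℤ) := by
      intro i
      rw [← ZMod.intCast_zmod_eq_zero_iff_dvd]
      have h2 := congrFun hg i
      simp only [Finset.sum_apply, Pi.smul_apply, smul_eq_mul, Pi.zero_apply, V] at h2
      push_cast
      rw [← h2]
      refine Finset.sum_congr rfl fun k _ => ?_
      rw [ZMod.natCast_zmod_val, mul_comm]
    choose D hD using h1
    refine ⟨∏ i, γ i ^ D i, ?_⟩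
    calc ∏ k, x k ^ (g k).val = ∏ k, ∏ i, γ i ^ (E k i * ((g k).val : ℤ)) := by
          refine Finset.prod_congr rfl fun k _ => ?_
          rw [hx k, ← Finset.prod_pow]
          refine Finset.prod_congr rfl fun i _ => ?_
          rw [zpow_mul, zpow_natCast]
      _ = ∏ i, ∏ k, γ i ^ (E k i * ((g k).val : ℤ)) := Finset.prod_comm
      _ = ∏ i, γ i ^ (∑ k, E k i * ((g k).val : ℤ)) := by
          exact Finset.prod_congr rfl fun i _ => zpow_sum₀' _ (hγ i) _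
      _ = ∏ i, (γ i ^ D i) ^ p := by
          refine Finset.prod_congr rfl fun i _ => ?_
          rw [hD i, mul_comm, zpow_mul, zpow_natCast]
      _ = _ := Finset.prod_pow _ _ _

variable {K : Type*} [Field K] [NumberField K]

/-- generators of the group generated by the units and one element -/
theorem exists_gens (g : K) (hg : g ≠ 0) : ∃ γ : Fin (rank K + 2) → K, (∀ i, γ i ≠ 0) ∧
    ∀ (u : (𝓞 K)ˣ) (a : ℤ), ∃ e : Fin (rank K + 2) → ℤ,
      ((u : 𝓞 K) : K) * g ^ a = ∏ i, γ i ^ e i := by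
  obtain ⟨τ, hτ⟩ := IsCyclic.exists_generator (α := torsion K)
  have hu0 : ∀ u : (𝓞 K)ˣ, ((u : 𝓞 K) : K) ≠ 0 := fun u => coe_ne_zero u
  refine ⟨Fin.cons g (Fin.cons (((τ : (𝓞 K)ˣ) : 𝓞 K) : K)
    (fun i => ((fundSystem K i : 𝓞 K) : K))), ?_, ?_⟩
  · intro i
    refine Fin.cases hg (fun i => ?_) i
    rw [Fin.cons_succ]
    refine Fin.cases (hu0 _) (fun i => ?_) i
    rw [Fin.cons_succ]
    exact hu0 _
  · intro u a
    obtain ⟨⟨ζ, e⟩, he, -⟩ := exist_unique_eq_mul_prod K u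
    obtain ⟨n, hn⟩ := Subgroup.mem_zpowers_iff.mp (hτ ζ)
    refine ⟨Fin.cons a (Fin.cons n e), ?_⟩
    rw [Fin.prod_univ_succ, Fin.prod_univ_succ]
    simp only [Fin.cons_zero, Fin.cons_succ]
    have h1 : ((u : 𝓞 K) : K) = (((τ : (𝓞 K)ˣ) : 𝓞 K) : K) ^ n *
        ∏ i, ((fundSystem K i : 𝓞 K) : K) ^ e i := by
      have h2 : u = (τ : (𝓞 K)ˣ) ^ n * ∏ i, (fundSystem K i) ^ e i := by
        rw [he]
        simp only
        rw [← hn, SubgroupClass.coe_zpow]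
      let φ : (𝓞 K)ˣ →* K := ((algebraMap (𝓞 K) K : 𝓞 K →+* K) : 𝓞 K →* K).comp
        (Units.coeHom (𝓞 K))
      have hφ : ∀ (x : (𝓞 K)ˣ) (k : ℤ), φ (x ^ k) = φ x ^ k := fun x k => coe_zpow x k
      have h3 := congrArg φ h2
      rw [map_mul, map_prod, hφ] at h3
      rw [Finset.prod_congr rfl fun i _ => hφ (fundSystem K i) (e i)] at h3
      exact h3
    rw [h1]
    ring

/-- a prime number in a nonzero prime ideal -/
theorem exists_prime_mem (q : Ideal (𝓞 K)) [hq : q.IsPrime] (h0 : q ≠ ⊥) :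
    ∃ l : ℕ, l.Prime ∧ (l : 𝓞 K) ∈ q := by
  have h1 : ((Ideal.absNorm q : ℕ) : 𝓞 K) ∈ q := Ideal.absNorm_mem q
  have h2 : Ideal.absNorm q ≠ 0 := by
    rw [Ne, Ideal.absNorm_eq_zero_iff]
    exact h0
  have key : ∀ n : ℕ, n ≠ 0 → ((n : ℕ) : 𝓞 K) ∈ q → ∃ l : ℕ, l.Prime ∧ (l : 𝓞 K) ∈ q := by
    intro n
    induction n using Nat.recOnMul with
    | zero => intro h; exact absurd rfl h
    | one =>
      intro _ h
      exact absurd ((Ideal.eq_top_iff_one q).2 (by simpa using h)) hq.ne_top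
    | prime p hp => intro _ h; exact ⟨p, hp, h⟩
    | mul a b ha hb =>
      intro hab h
      rw [Nat.cast_mul] at h
      rcases hq.mem_or_mem h with h | h
      · exact ha (left_ne_zero_of_mul hab) h
      · exact hb (right_ne_zero_of_mul hab) h
  exact key _ h2 h1

theorem dvd_of_norms {x y : 𝓞 K} (hx : x ≠ 0) (hy : y ≠ 0)
    (h : ∀ (l : ℕ) [Fact l.Prime] (j : K →+* PadicAlgCl l), ‖j (y : K)‖ ≤ ‖j (x : K)‖) :
    x ∣ y := by
  have hxs : Ideal.span {x} ≠ 0 := by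
    rw [Ideal.zero_eq_bot, Ne, Ideal.span_singleton_eq_bot]; exact hx
  have hys : Ideal.span {y} ≠ 0 := by
    rw [Ideal.zero_eq_bot, Ne, Ideal.span_singleton_eq_bot]; exact hy
  have h1 : Ideal.span {x} ∣ Ideal.span {y} := by
    rw [UniqueFactorizationMonoid.dvd_iff_emultiplicity_le hxs]
    intro q hq
    have hq0 : q ≠ ⊥ := hq.ne_zero
    haveI : q.IsPrime := Ideal.isPrime_of_prime hq
    obtain ⟨l, hl, hlq⟩ := exists_prime_mem q hq0
    haveI : Fact l.Prime := ⟨hl⟩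
    obtain ⟨j, hj⟩ := exists_emb q hq0 hlq
    obtain ⟨r, hr0, hr1, hr⟩ := exists_unif q hq0 j hj
    have e1 := hr x hx
    have e2 := hr y hy
    have h2 := h l j
    have h3 : r ^ multiplicity q (Ideal.span {y}) ≤ r ^ multiplicity q (Ideal.span {x}) := by
      rw [← e1, ← e2]
      exact pow_le_pow_left₀ (norm_nonneg _) h2 _
    have h4 : multiplicity q (Ideal.span {x}) ≤ multiplicity q (Ideal.span {y}) :=
      (pow_le_pow_iff_right_of_lt_one₀ hr0 hr1).mp h3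
    rw [(FiniteMultiplicity.of_prime_left hq hxs).emultiplicity_eq_multiplicity,
      (FiniteMultiplicity.of_prime_left hq hys).emultiplicity_eq_multiplicity]
    exact_mod_cast h4
  rwa [Ideal.dvd_span_singleton, Ideal.mem_span_singleton] at h1

/-- stripping the primes above `p` -/
theorem strip {p : ℕ} {g₁ g₂ : 𝓞 K}
    (hpr : ∀ q : Ideal (𝓞 K), q.IsPrime → (p : 𝓞 K) ∈ q → q = Ideal.span {g₁} ∨ q = Ideal.span {g₂})
    (x : 𝓞 K) (hx : x ≠ 0) : ∃ (a b N : ℕ) (y : 𝓞 K), x = g₁ ^ a * g₂ ^ b * y ∧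
      g₁ ^ a * g₂ ^ b ∣ (p : 𝓞 K) ^ N ∧ ∀ q : Ideal (𝓞 K), q.IsPrime → (p : 𝓞 K) ∈ q → y ∉ q := by
  have hwf : WellFounded (DvdNotUnit (α := 𝓞 K)) := IsWellFounded.wf
  induction x using hwf.induction with
  | _ x ih =>
    by_cases hcase : ∀ q : Ideal (𝓞 K), q.IsPrime → (p : 𝓞 K) ∈ q → x ∉ q
    · exact ⟨0, 0, 0, x, by simp, by simp, hcase⟩
    push Not at hcase
    obtain ⟨q, hq, hpq, hxq⟩ := hcase
    have key : ∀ g : 𝓞 K, q = Ideal.span {g} → ∃ y, y ≠ 0 ∧ DvdNotUnit y x ∧ x = g * y ∧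
        g ∣ (p : 𝓞 K) := by
      intro g hg
      rw [hg, Ideal.mem_span_singleton] at hxq hpq
      obtain ⟨y, hy⟩ := hxq
      have hy0 : y ≠ 0 := by
        rintro rfl
        rw [mul_zero] at hy
        exact hx hy
      refine ⟨y, hy0, ⟨hy0, g, ?_, by rw [hy, mul_comm]⟩, hy, hpq⟩
      intro hu
      apply hq.ne_top
      rw [hg, Ideal.span_singleton_eq_top]
      exact hu
    rcases hpr q hq hpq with h | h
    · obtain ⟨y, hy0, hyx, hxy, hgp⟩ := key g₁ h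
      obtain ⟨a, b, N, y', h1, h2, h3⟩ := ih y hyx hy0
      refine ⟨a + 1, b, N + 1, y', ?_, ?_, h3⟩
      · rw [hxy, h1]; ring
      · have : g₁ ^ (a + 1) * g₂ ^ b = (g₁ ^ a * g₂ ^ b) * g₁ := by ring
        rw [this, pow_succ]
        exact mul_dvd_mul h2 hgp
    · obtain ⟨y, hy0, hyx, hxy, hgp⟩ := key g₂ h
      obtain ⟨a, b, N, y', h1, h2, h3⟩ := ih y hyx hy0
      refine ⟨a, b + 1, N + 1, y', ?_, ?_, h3⟩
      · rw [hxy, h1]; ring
      · have : g₁ ^ a * g₂ ^ (b + 1) = (g₁ ^ a * g₂ ^ b) * g₂ := by ring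
        rw [this, pow_succ]
        exact mul_dvd_mul h2 hgp

/-- the structure of the elements which are units away from `p` -/
theorem su_factor {p : ℕ} [Fact p.Prime] {g₁ g₂ : 𝓞 K} (hg₁ : g₁ ≠ 0) (hg₂ : g₂ ≠ 0)
    (hpr : ∀ q : Ideal (𝓞 K), q.IsPrime → (p : 𝓞 K) ∈ q → q = Ideal.span {g₁} ∨ q = Ideal.span {g₂})
    {w : K} (hw0 : w ≠ 0) (hw : SU p w) : ∃ (u : (𝓞 K)ˣ) (a b : ℤ),
      w = ((u : 𝓞 K) : K) * (g₁ : K) ^ a * (g₂ : K) ^ b := by
  have hp : p.Prime := Fact.out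
  obtain ⟨x, y, hy, rfl⟩ := IsFractionRing.div_surjective (A := 𝓞 K) w
  have hy0 : y ≠ 0 := nonZeroDivisors.ne_zero hy
  have hx0 : x ≠ 0 := by
    rintro rfl
    simp at hw0
  obtain ⟨a, b, N, x', hx', hdx, hxq⟩ := strip hpr x hx0
  obtain ⟨c, d, M, y', hy', hdy, hyq⟩ := strip hpr y hy0
  have hx'0 : x' ≠ 0 := by
    rintro rfl
    rw [mul_zero] at hx'
    exact hx0 hx'
  have hy'0 : y' ≠ 0 := by
    rintro rfl
    rw [mul_zero] at hy'
    exact hy0 hy'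
  -- norms of divisors of powers of `p`
  have hdiv : ∀ (l : ℕ) [Fact l.Prime], l ≠ p → ∀ (j : K →+* PadicAlgCl l) (s : 𝓞 K) (N : ℕ),
      s ∣ (p : 𝓞 K) ^ N → ‖j (s : K)‖ = 1 := by
    intro l _ hlp j s N hs
    obtain ⟨t, ht⟩ := hs
    have h1 : ‖j (((p : 𝓞 K) ^ N : 𝓞 K) : K)‖ = 1 := by
      have : (((p : 𝓞 K) ^ N : 𝓞 K) : K) = (p : K) ^ N := by simp
      rw [this, map_pow, map_natCast, norm_pow, norm_nat_ne hp hlp, one_pow]
    rw [ht] at h1
    have h2 : j ((s * t : 𝓞 K) : K) = j (s : K) * j (t : K) := by simp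
    rw [h2, norm_mul] at h1
    have h3 := norm_emb_le j s
    have h4 := norm_emb_le j t
    refine le_antisymm h3 ?_
    by_contra hlt
    push Not at hlt
    have : ‖j (s : K)‖ * ‖j (t : K)‖ < 1 := by
      calc ‖j (s : K)‖ * ‖j (t : K)‖ ≤ ‖j (s : K)‖ * 1 := by gcongr
        _ < 1 := by rw [mul_one]; exact hlt
    linarith
  have hnorm : ∀ (l : ℕ) [Fact l.Prime] (j : K →+* PadicAlgCl l),
      ‖j (x' : K)‖ = ‖j (y' : K)‖ := by
    intro l _ j
    by_cases hlp : l = p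
    · subst hlp
      have h1 : ((l : ℕ) : 𝓞 K) ∈ pr j := by
        rw [mem_pr]
        simpa using norm_nat_lt (l := l)
      have h2 := hxq (pr j) inferInstance h1
      have h3 := hyq (pr j) inferInstance h1
      rw [mem_pr, not_lt] at h2 h3
      rw [le_antisymm (norm_emb_le j x') h2, le_antisymm (norm_emb_le j y') h3]
    · have h1 := hw l hlp j
      have h2 := hdiv l hlp j _ _ hdx
      have h3 := hdiv l hlp j _ _ hdy
      have h4 : ‖j (x : K)‖ = ‖j (x' : K)‖ := by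
        have : j (x : K) = j ((g₁ ^ a * g₂ ^ b : 𝓞 K) : K) * j (x' : K) := by
          rw [hx']; simp
        rw [this, norm_mul, h2, one_mul]
      have h5 : ‖j (y : K)‖ = ‖j (y' : K)‖ := by
        have : j (y : K) = j ((g₁ ^ c * g₂ ^ d : 𝓞 K) : K) * j (y' : K) := by
          rw [hy']; simp
        rw [this, norm_mul, h3, one_mul]
      rw [map_div₀, norm_div] at h1
      have h6 : ‖j (y : K)‖ ≠ 0 := by
        rw [norm_ne_zero_iff, map_ne_zero]
        exact_mod_cast hy0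
      rw [div_eq_one_iff_eq h6] at h1
      rw [← h4, ← h5]
      exact h1
  have hass : Associated y' x' := associated_of_dvd_dvd
    (dvd_of_norms hy'0 hx'0 fun l _ j => (hnorm l j).le)
    (dvd_of_norms hx'0 hy'0 fun l _ j => (hnorm l j).ge)
  obtain ⟨u, hu⟩ := hass
  have hg₁' : (g₁ : K) ≠ 0 := by exact_mod_cast hg₁
  have hg₂' : (g₂ : K) ≠ 0 := by exact_mod_cast hg₂
  have hy'' : (y' : K) ≠ 0 := by exact_mod_cast hy'0
  refine ⟨u, (a : ℤ) - c, (b : ℤ) - d, ?_⟩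
  rw [hx', hy', ← hu, zpow_sub₀ hg₁', zpow_sub₀ hg₂']
  simp only [map_mul, map_pow, zpow_natCast]
  field_simp

/-- Bezout -/
theorem pow_of_pow {K : Type*} [Field K] {p : ℕ} (hp : p.Prime) {x b : K} (hx : x ≠ 0)
    (hb : b ≠ 0) {n : ℕ} (hn : ¬ p ∣ n) (h : x ^ n = b ^ p) : ∃ d : K, d ^ p = x := by
  have hco : Nat.Coprime n p := Nat.coprime_comm.mp ((Nat.Prime.coprime_iff_not_dvd hp).mpr hn)
  have h1 := Nat.gcd_eq_gcd_ab n p
  rw [hco.gcd_eq_one] at h1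
  refine ⟨b ^ (n.gcdA p) * x ^ (n.gcdB p), ?_⟩
  rw [mul_pow, ← zpow_natCast, ← zpow_natCast, ← zpow_mul, ← zpow_mul]
  have h2 : b ^ (n.gcdA p * (p : ℤ)) = x ^ ((n : ℤ) * n.gcdA p) := by
    rw [mul_comm, zpow_mul, zpow_natCast, ← h, zpow_mul, zpow_natCast]
  rw [h2, ← zpow_add₀ hx]
  have h3 : (n : ℤ) * n.gcdA p + n.gcdB p * p = 1 := by
    rw [mul_comm (n.gcdB p)]
    exact_mod_cast h1.symm
  rw [h3, zpow_one]

/-- **Criterion for rigidity**. -/
theorem rigid_of_levels {p : ℕ} [Fact p.Prime] (hp2 : p ≠ 2) (ι : K →+* PadicAlgCl p) {z : K}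
    (hz : IsPrimitiveRoot z p)
    (hι : ∀ x : K, ι x ∈ IntermediateField.adjoin ℚ_[p] {ι z})
    (hcl : ¬ p ∣ NumberField.classNumber K) (hr : NumberField.Units.rank K + 2 ≤ p)
    (g₁ g₂ : 𝓞 K) (hg₁ : ‖ι (g₁ : K)‖ = 1) (hg₂ : ‖ι (g₂ : K)‖ = ‖1 - ι z‖)
    (hpr : ∀ q : Ideal (𝓞 K), q.IsPrime → (p : 𝓞 K) ∈ q → q = Ideal.span {g₁} ∨ q = Ideal.span {g₂})
    (v : ℕ → K)
    (hv : ∀ j ∈ Finset.Icc 1 p, ∃ (u : (𝓞 K)ˣ) (a : ℤ), v j = ((u : 𝓞 K) : K) * (g₁ : K) ^ a)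
    (hlev : ∀ j ∈ Finset.Icc 1 p, ‖ι (v j) - 1‖ = ‖1 - ι z‖ ^ j) : Rigid p K ι := by
  have hp : p.Prime := Fact.out
  intro a ha haw hat
  have hZ : IsPrimitiveRoot (ι z) p := hz.map_of_injective ι.injective
  have hq0 := lam_pos hZ
  have hq1 := lam_lt hZ
  obtain ⟨y, w, hy, hw, hSU, he⟩ := exists_sunit hp ha haw
  have hg₁0 : g₁ ≠ 0 := by
    rintro rfl
    simp at hg₁
  have hg₂0 : g₂ ≠ 0 := by
    rintro rfl
    rw [← hg₂] at hq0
    simp at hq0
  have hg₁K : (g₁ : K) ≠ 0 := by exact_mod_cast hg₁0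
  have hg₂K : (g₂ : K) ≠ 0 := by exact_mod_cast hg₂0
  obtain ⟨u, e₁, e₂, hwf⟩ := su_factor hg₁0 hg₂0 hpr hw hSU
  have hcomp : comp p ι ≤ IntermediateField.adjoin ℚ_[p] {ι z} := by
    refine IntermediateField.adjoin_le_iff.mpr ?_
    rintro _ ⟨x, rfl⟩
    exact hι x
  obtain ⟨β, hβ, hβa⟩ := hat
  -- the class number
  set h := NumberField.classNumber K with hh
  have hιy : ι y ≠ 0 := by rwa [map_ne_zero]
  have hιw : ι w ≠ 0 := by rwa [map_ne_zero]
  set γ := β ^ h / ι y with hγ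
  have hγp : γ ^ p = ι w := by
    rw [hγ, div_pow, div_eq_iff (pow_ne_zero _ hιy), ← pow_mul, mul_comm h, pow_mul, hβa, ← map_pow,
      he, map_mul, map_pow, mul_comm]
  have hγm : γ ∈ IntermediateField.adjoin ℚ_[p] {ι z} :=
    div_mem (pow_mem (hcomp hβ) _) (hι y)
  have hγ0 : γ ≠ 0 := by
    rintro h0
    rw [h0, zero_pow hp.ne_zero] at hγp
    exact hιw hγp.symm
  obtain ⟨k, hk⟩ := exists_zpow hp2 hZ hγm hγ0
  have hnw : ‖ι w‖ = ‖1 - ι z‖ ^ e₂ := by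
    rw [hwf, map_mul, map_mul, norm_mul, norm_mul, map_zpow₀, map_zpow₀, norm_zpow, norm_zpow, hg₁,
      hg₂, one_zpow, norm_unit, one_mul, one_mul]
  have he₂ : e₂ = k * p := by
    have h1 : ‖1 - ι z‖ ^ (k * (p : ℤ)) = ‖1 - ι z‖ ^ e₂ := by
      rw [← hnw, ← hγp, norm_pow, hk, zpow_mul, zpow_natCast]
    exact (zpow_right_injective₀ hq0 hq1.ne h1).symm
  set w' : K := ((u : 𝓞 K) : K) * (g₁ : K) ^ e₁ with hw'
  have hw'0 : w' ≠ 0 := mul_ne_zero (coe_ne_zero u) (zpow_ne_zero _ hg₁K)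
  have hww' : w = w' * ((g₂ : K) ^ k) ^ p := by
    rw [hwf, he₂, zpow_mul, zpow_natCast]
  -- `w'` is locally a `p`-th power of a unit
  set δ := γ / ι ((g₂ : K) ^ k) with hδ
  have hg₂k : ι ((g₂ : K) ^ k) ≠ 0 := by
    rw [map_ne_zero]
    exact zpow_ne_zero _ hg₂K
  have hδp : δ ^ p = ι w' := by
    rw [hδ, div_pow, hγp, hww', map_mul, map_pow]
    field_simp
  have hδm : δ ∈ IntermediateField.adjoin ℚ_[p] {ι z} := div_mem hγm (hι _)
  have hnw' : ‖ι w'‖ = 1 := by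
    rw [hw', map_mul, norm_mul, map_zpow₀, norm_zpow, hg₁, one_zpow, norm_unit, one_mul]
  have hδ1 : ‖δ‖ = 1 := by
    have h1 : ‖δ‖ ^ p = 1 := by rw [← norm_pow, hδp, hnw']
    exact (pow_eq_one_iff_of_nonneg (norm_nonneg _) hp.ne_zero).mp h1
  -- the relation
  obtain ⟨γs, hγs0, hgen⟩ := exists_gens (g₁ : K) hg₁K
  let x : Fin (p + 1) → K := Fin.cons w' (fun i => v (i + 1))
  have hx : ∀ i, ∃ e : Fin (rank K + 2) → ℤ, x i = ∏ t, γs t ^ e t := by
    intro i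
    refine Fin.cases ?_ (fun i => ?_) i
    · exact hgen u e₁
    · obtain ⟨u', a', h'⟩ := hv (i + 1) (Finset.mem_Icc.mpr ⟨by omega, by have := i.2; omega⟩)
      obtain ⟨e, he'⟩ := hgen u' a'
      exact ⟨e, by simp only [x, Fin.cons_succ]; rw [h', he']⟩
  choose E hE using hx
  obtain ⟨c, ⟨k₀, hk₀⟩, b, hb⟩ := exists_relation (p := p) (m := rank K + 2) (n := p + 1)
    (by omega) γs hγs0 x E hE
  rw [Fin.prod_univ_succ] at hb
  simp only [x, Fin.cons_zero, Fin.cons_succ] at hb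
  -- exponents
  let f : ℕ → ℕ := fun j => if hj : j < p + 1 then c ⟨j, hj⟩ else 0
  have hf : ∀ i : Fin p, c i.succ = f (i + 1) := by
    intro i
    have : (i : ℕ) + 1 < p + 1 := by have := i.2; omega
    simp only [f, this, dif_pos]
    rfl
  have hprod : ∏ i : Fin p, v (i + 1) ^ c i.succ = ∏ j ∈ Finset.Icc 1 p, v j ^ f j := by
    rw [Finset.prod_congr rfl fun i _ => by rw [hf i]]
    rw [Fin.prod_univ_eq_prod_range (fun j => v (j + 1) ^ f (j + 1)) p]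
    rw [Finset.range_eq_Ico, Finset.prod_Ico_add' (fun j => v j ^ f j) 0 p 1]
    rfl
  rw [hprod] at hb
  have hv1 : ∀ j ∈ Finset.Icc 1 p, ‖ι (v j)‖ = 1 := by
    intro j hj
    obtain ⟨u', a', h'⟩ := hv j hj
    rw [h', map_mul, norm_mul, map_zpow₀, norm_zpow, hg₁, one_zpow, norm_unit, one_mul]
  have hιb : ‖ι b‖ = 1 := by
    have h1 : ‖ι b‖ ^ p = 1 := by
      rw [← norm_pow, ← map_pow, ← hb, map_mul, norm_mul, map_pow, norm_pow, hnw', one_pow, one_mul,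
        map_prod, norm_prod]
      refine Finset.prod_eq_one fun j hj => ?_
      rw [map_pow, norm_pow, hv1 j hj, one_pow]
    exact (pow_eq_one_iff_of_nonneg (norm_nonneg _) hp.ne_zero).mp h1
  have hδ0 : δ ≠ 0 := by
    rw [← norm_ne_zero_iff, hδ1]
    exact one_ne_zero
  set η := ι b / δ ^ c 0 with hη
  have hη1 : ‖η‖ = 1 := by
    rw [hη, norm_div, norm_pow, hιb, hδ1, one_pow, div_one]
  have hηm : η ∈ IntermediateField.adjoin ℚ_[p] {ι z} := div_mem (hι b) (pow_mem hδm _)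
  have hηp : η ^ p = ∏ j ∈ Finset.Icc 1 p, ι (v j) ^ f j := by
    have h1 : ∏ j ∈ Finset.Icc 1 p, ι (v j) ^ f j = ι (∏ j ∈ Finset.Icc 1 p, v j ^ f j) := by
      rw [map_prod]
      exact Finset.prod_congr rfl fun j _ => (map_pow ι _ _).symm
    rw [h1, hη, div_pow, ← pow_mul, mul_comm (c 0), pow_mul, hδp, ← map_pow, ← hb, map_mul, map_pow,
      mul_div_assoc, mul_comm, div_mul_cancel₀]
    exact pow_ne_zero _ (by rwa [map_ne_zero])
  have hnear := pow_unit_near hp2 hZ hηm hη1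
  rw [hηp, ← Finset.prod_pow] at hnear
  have hdiv := levels_indep hp2 hZ (w := fun j => ι (v j)) (fun j _ => hι _) hlev
    (e := fun j => f j * (p - 1)) (by
      refine le_trans (le_of_eq ?_) hnear
      congr 2
      refine Finset.prod_congr rfl fun j _ => ?_
      rw [pow_mul])
  have hfd : ∀ j ∈ Finset.Icc 1 p, p ∣ f j := by
    intro j hj
    refine (hp.dvd_mul.mp (hdiv j hj)).resolve_right fun h => ?_
    have := Nat.le_of_dvd (by have := hp.two_le; omega) h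
    have := hp.two_le
    omega
  have hc0 : ¬ p ∣ c 0 := by
    intro h0
    apply hk₀
    refine Fin.cases h0 (fun i => ?_) k₀
    rw [hf i]
    exact hfd _ (Finset.mem_Icc.mpr ⟨by omega, by have := i.2; omega⟩)
  -- conclusion
  have hv0 : ∀ j ∈ Finset.Icc 1 p, v j ≠ 0 := by
    intro j hj h0
    have := hv1 j hj
    rw [h0, map_zero, norm_zero] at this
    exact zero_ne_one this
  have hb0 : b ≠ 0 := by
    rintro rfl
    simp at hιb
  set B := b / ∏ j ∈ Finset.Icc 1 p, v j ^ (f j / p) with hB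
  have hP0 : ∏ j ∈ Finset.Icc 1 p, v j ^ (f j / p) ≠ 0 :=
    Finset.prod_ne_zero_iff.mpr fun j hj => pow_ne_zero _ (hv0 j hj)
  have hBp : w' ^ c 0 = B ^ p := by
    have h1 : (∏ j ∈ Finset.Icc 1 p, v j ^ (f j / p)) ^ p = ∏ j ∈ Finset.Icc 1 p, v j ^ f j := by
      rw [← Finset.prod_pow]
      refine Finset.prod_congr rfl fun j hj => ?_
      rw [← pow_mul, Nat.div_mul_cancel (hfd j hj)]
    have h2 : ∏ j ∈ Finset.Icc 1 p, v j ^ f j ≠ 0 :=
      Finset.prod_ne_zero_iff.mpr fun j hj => pow_ne_zero _ (hv0 j hj)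
    rw [hB, div_pow, h1, ← hb]
    field_simp
  obtain ⟨d, hd⟩ := pow_of_pow hp hw'0 (div_ne_zero hb0 hP0) hc0 hBp
  -- `a ^ h` is a `p`-th power
  have hah : a ^ h = (y * d * (g₂ : K) ^ k) ^ p := by
    rw [he, hww', ← hd]
    ring
  have hd0 : d ≠ 0 := by
    rintro rfl
    rw [zero_pow hp.ne_zero] at hd
    exact hw'0 hd.symm
  exact pow_of_pow hp ha (mul_ne_zero (mul_ne_zero hy hd0) (zpow_ne_zero _ hg₂K)) hcl hah

end Cyc
end BKGen
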