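import Pool.Agent.Lib.MP_7c08ba_nt.Cyc.ClassAux
import Pool.Agent.Lib.MP_7c08ba_nt.Gen.Defs

/-!
Auxiliary facts for the verification of the hypotheses of the rigidity criterion for cyclotomic
fields.
-/

namespace BKGen.Cyc

open NumberField Polynomial Ideal

/-- The element `x` of `K` is a unit of the ring of integers. -/
def IsU {K : Type*} [Field K] (x : K) : Prop := ∃ u : (𝓞 K)ˣ, ((u : 𝓞 K) : K) = x

section Units

variable {K : Type*} [Field K]

theorem isU_of_mul {x y : K} (hx : IsIntegral ℤ x) (hy : IsIntegral ℤ y) (h : x * y = 1) :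
    IsU x := by
  let X : 𝓞 K := ⟨x, hx⟩
  let Y : 𝓞 K := ⟨y, hy⟩
  have h1 : X * Y = 1 := RingOfIntegers.ext h
  have h2 : Y * X = 1 := by rw [mul_comm]; exact h1
  exact ⟨⟨X, Y, h1, h2⟩, rfl⟩

theorem IsU.mul {x y : K} (hx : IsU x) (hy : IsU y) : IsU (x * y) := by
  obtain ⟨u, rfl⟩ := hx
  obtain ⟨v, rfl⟩ := hy
  exact ⟨u * v, by simp⟩

theorem IsU.pow {x : K} (hx : IsU x) (n : ℕ) : IsU (x ^ n) := by
  obtain ⟨u, rfl⟩ := hx
  exact ⟨u ^ n, by simp⟩

theorem IsU.inv {x : K} (hx : IsU x) : IsU x⁻¹ := by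
  obtain ⟨u, rfl⟩ := hx
  refine ⟨u⁻¹, ?_⟩
  apply eq_inv_of_mul_eq_one_left
  rw [← map_mul, Units.inv_mul, map_one]

theorem IsU.div {x y : K} (hx : IsU x) (hy : IsU y) : IsU (x / y) := by
  rw [div_eq_mul_inv]
  exact hx.mul hy.inv

theorem IsU.neg {x : K} (hx : IsU x) : IsU (-x) := by
  obtain ⟨u, rfl⟩ := hx
  exact ⟨-u, by simp⟩

end Units

section Prime

variable {n : ℕ} [NeZero n] {K : Type*} [Field K] [NumberField K] [IsCyclotomicExtension {n} ℚ K]

/-- A prime `(p, ζ - a)` is generated by every element of it that divides `p` and `ζ - a`. -/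
theorem prime_eq_span {ζ : K} (hζ : IsPrimitiveRoot ζ n) {p : ℕ} (hp : p.Prime) (a : ℤ)
    (q : Ideal (𝓞 K)) (hq : q.IsPrime) (hpq : (p : 𝓞 K) ∈ q)
    (haq : hζ.toInteger - a ∈ q) {g h₁ h₂ : 𝓞 K} (hg : g ∈ q)
    (e₁ : g * h₁ = p) (e₂ : g * h₂ = hζ.toInteger - a) : q = span {g} := by
  apply le_antisymm
  · intro x hx
    rw [Ideal.mem_span_singleton]
    obtain ⟨m, t, rfl⟩ := exists_int_of_root hζ a x
    have hm : (m : 𝓞 K) ∈ q := by
      have := q.sub_mem hx (q.mul_mem_right t haq)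
      simpa using this
    have hpm : (p : ℤ) ∣ m := by
      by_contra hndvd
      have hc : IsCoprime (p : ℤ) m :=
        (Nat.prime_iff_prime_int.mp hp).irreducible.coprime_iff_not_dvd.mpr hndvd
      obtain ⟨r, s, hrs⟩ := hc
      apply hq.ne_top
      rw [Ideal.eq_top_iff_one]
      have h1 : (1 : 𝓞 K) = (r : 𝓞 K) * (p : 𝓞 K) + (s : 𝓞 K) * (m : 𝓞 K) := by
        have := congrArg (fun t : ℤ => (t : 𝓞 K)) hrs
        push_cast at this
        exact this.symm
      rw [h1]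
      exact q.add_mem (q.mul_mem_left _ hpq) (q.mul_mem_left _ hm)
    obtain ⟨k, rfl⟩ := hpm
    refine ⟨h₁ * k + h₂ * t, ?_⟩
    push_cast
    rw [← e₁, ← e₂]
    ring
  · rw [Ideal.span_singleton_le_iff_mem]
    exact hg

/-- The image of `ℚ(ζ)` lies in every field of `p`-adic numbers that contains the image of `ζ`. -/
theorem mem_of_root {ζ : K} (hζ : IsPrimitiveRoot ζ n) {p : ℕ} [Fact p.Prime]
    (ι : K →+* PadicAlgCl p) (L : IntermediateField ℚ_[p] (PadicAlgCl p)) (h : ι ζ ∈ L) (x : K) :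
    ι x ∈ L := by
  have htop : Algebra.adjoin ℚ {ζ} = ⊤ :=
    IsCyclotomicExtension.adjoin_primitive_root_eq_top hζ
  have hx : x ∈ Algebra.adjoin ℚ {ζ} := by rw [htop]; trivial
  refine Algebra.adjoin_induction (p := fun x _ => ι x ∈ L) ?_ ?_ ?_ ?_ hx
  · intro y hy
    rwa [Set.mem_singleton_iff.mp hy]
  · intro r
    rw [eq_ratCast, map_ratCast]
    have : ((r : ℚ) : PadicAlgCl p) = algebraMap ℚ_[p] (PadicAlgCl p) (r : ℚ_[p]) := by
      rw [map_ratCast]
    rw [this]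
    exact L.algebraMap_mem _
  · rintro u v - - hu hv
    rw [map_add]
    exact L.add_mem hu hv
  · rintro u v - - hu hv
    rw [map_mul]
    exact L.mul_mem hu hv

/-- The rank of the unit group. -/
theorem rank_eq (hn : 2 < n) : Units.rank K = n.totient / 2 - 1 := by
  rw [Units.rank, InfinitePlace.card_eq_nrRealPlaces_add_nrComplexPlaces,
    IsCyclotomicExtension.Rat.nrRealPlaces_eq_zero (n := n) K hn,
    IsCyclotomicExtension.Rat.nrComplexPlaces_eq_totient_div_two n K, zero_add]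

end Prime

/-- A simple root modulo `p` of a quadratic polynomial lifts to `ℤ_p`. -/
theorem hensel_quadratic {p : ℕ} [Fact p.Prime] (b c a : ℤ) (h : (p : ℤ) ∣ a ^ 2 + b * a + c)
    (h' : ¬ (p : ℤ) ∣ 2 * a + b) : ∃ x : ℚ_[p], x ^ 2 + b * x + c = 0 := by
  let F : ℤ_[p][X] := X ^ 2 + C (b : ℤ_[p]) * X + C (c : ℤ_[p])
  have hF : aeval (a : ℤ_[p]) F = ((a ^ 2 + b * a + c : ℤ) : ℤ_[p]) := by
    simp [F]
  have hF' : aeval (a : ℤ_[p]) (derivative F) = ((2 * a + b : ℤ) : ℤ_[p]) := by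
    simp only [F, derivative_add, derivative_mul, derivative_C, derivative_X, derivative_X_pow,
      map_add, map_mul, aeval_C, aeval_X, map_pow, map_zero, map_one, Int.cast_add, Int.cast_mul]
    norm_num
  have h1 : ‖aeval (a : ℤ_[p]) (derivative F)‖ = 1 := by
    rw [hF']
    have h3 := PadicInt.norm_le_one (((2 * a + b : ℤ) : ℤ_[p]))
    rcases h3.lt_or_eq with h4 | h4
    · rw [PadicInt.norm_int_lt_one_iff_dvd] at h4
      exact absurd h4 h'
    · exact h4
  have h2 : ‖aeval (a : ℤ_[p]) F‖ < ‖aeval (a : ℤ_[p]) (derivative F)‖ ^ 2 := by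
    rw [h1, one_pow, hF, PadicInt.norm_int_lt_one_iff_dvd]
    exact h
  obtain ⟨x, hx, -⟩ := hensels_lemma h2
  refine ⟨(x : ℚ_[p]), ?_⟩
  have h3 : x ^ 2 + (b : ℤ_[p]) * x + (c : ℤ_[p]) = 0 := by simpa [F] using hx
  have h4 := congrArg (fun y : ℤ_[p] => (y : ℚ_[p])) h3
  push_cast at h4
  exact h4

/-- The roots of a quadratic polynomial with a root in `ℚ_p` lie in every extension. -/
theorem mem_of_quadratic {p : ℕ} [Fact p.Prime] (b c : ℤ) (h : ∃ x : ℚ_[p], x ^ 2 + b * x + c = 0)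
    (y : PadicAlgCl p) (hy : y ^ 2 + b * y + c = 0) (L : IntermediateField ℚ_[p] (PadicAlgCl p)) :
    y ∈ L := by
  obtain ⟨x, hx⟩ := h
  have hx' : (algebraMap ℚ_[p] (PadicAlgCl p) x) ^ 2 + b * (algebraMap ℚ_[p] (PadicAlgCl p) x) +
      c = 0 := by
    have := congrArg (algebraMap ℚ_[p] (PadicAlgCl p)) hx
    simpa using this
  have h1 : (y - algebraMap ℚ_[p] (PadicAlgCl p) x) *
      (y - (-b - algebraMap ℚ_[p] (PadicAlgCl p) x)) = 0 := by
    linear_combination hy - hx'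
  have hxL : algebraMap ℚ_[p] (PadicAlgCl p) x ∈ L := L.algebraMap_mem x
  rcases mul_eq_zero.mp h1 with h2 | h2
  · rw [sub_eq_zero.mp h2]
    exact hxL
  · rw [sub_eq_zero.mp h2]
    exact L.sub_mem (L.neg_mem (intCast_mem L b)) hxL

end BKGen.Cyc
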