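import Pool.Agent.Lib.MP_7c08ba_nt.Cyc.LevelFive
import Pool.Agent.Lib.MP_7c08ba_nt.Cyc.ClassTwenty
import Pool.Agent.Lib.MP_7c08ba_nt.Cyc.HypAux

/-!
The field `ℚ(ζ_20)` at `5`: units and powers of a generator of one prime above `5`, of exact levels
`1, ..., 5` at the other prime.
-/

namespace BKGen.Cyc.Five

open NumberField Polynomial Ideal

attribute [local instance] fact5

section

variable {K : Type*} [Field K]

theorem int_i {i : K} (hi : i ^ 2 = -1) : IsIntegral ℤ i :=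
  IsIntegral.of_pow (n := 2) (by norm_num) (by rw [hi]; exact isIntegral_one.neg)

theorem int_z {z : K} (hz : 1 + z + z ^ 2 + z ^ 3 + z ^ 4 = 0) : IsIntegral ℤ z :=
  IsIntegral.of_pow (n := 5) (by norm_num) (by
    rw [show z ^ 5 = 1 by linear_combination (z - 1) * hz]
    exact isIntegral_one)

theorem isU_z {z : K} (hz : 1 + z + z ^ 2 + z ^ 3 + z ^ 4 = 0) : IsU z :=
  isU_of_mul (y := z ^ 4) (int_z hz) ((int_z hz).pow 4) (by linear_combination (z - 1) * hz)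

theorem isU_u {i z : K} (hi : i ^ 2 = -1) (hz : 1 + z + z ^ 2 + z ^ 3 + z ^ 4 = 0) :
    IsU (u i z) := by
  have h1 : IsIntegral ℤ (i * z) := (int_i hi).mul (int_z hz)
  refine isU_of_mul (y := (i * z) ^ 7 + (i * z) ^ 6 + ((i * z) ^ 3 + (i * z) ^ 2))
    (isIntegral_one.sub h1) (((h1.pow 7).add (h1.pow 6)).add ((h1.pow 3).add (h1.pow 2))) ?_
  unfold u
  linear_combination (z ^ 2 + z ^ 4 + z ^ 6 + z ^ 8 - i ^ 2 * z ^ 4 - i ^ 2 * z ^ 6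
    - i ^ 2 * z ^ 8 + i ^ 4 * z ^ 6 + i ^ 4 * z ^ 8 - i ^ 6 * z ^ 8) * hi
    + (-1 + z - z ^ 2 + z ^ 3 - z ^ 4) * hz

theorem isU_real {z : K} (hz : 1 + z + z ^ 2 + z ^ 3 + z ^ 4 = 0) :
    IsU (z + z ^ 4) := by
  have h1 := int_z hz
  refine isU_of_mul (y := -(z ^ 2 + z ^ 3)) (h1.add (h1.pow 4)) ((h1.pow 2).add (h1.pow 3)).neg ?_
  linear_combination (-1 + z - z ^ 3) * hz

/-- The unit `(2 + i) / g₁ ^ 4`. -/
def quo (i z : K) : K := -2 + 2 * z - 3 * i - 3 * i * z - 2 * i * z ^ 3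

theorem isU_quo {i z : K} (hi : i ^ 2 = -1) (hz : 1 + z + z ^ 2 + z ^ 3 + z ^ 4 = 0) :
    IsU (quo i z) := by
  have h1 := int_z hz
  have h2 := int_i hi
  have hn : ∀ m : ℤ, IsIntegral ℤ (m : K) := fun m => isIntegral_intCast (R := ℤ) (B := K) m
  have hX : IsIntegral ℤ (quo i z) := by
    have : quo i z = ((-2 : ℤ) : K) + ((2 : ℤ) : K) * z + ((-3 : ℤ) : K) * i
        + ((-3 : ℤ) : K) * (i * z) + ((-2 : ℤ) : K) * (i * z ^ 3) := by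
      unfold quo
      push_cast
      ring
    rw [this]
    exact ((((hn _).add ((hn _).mul h1)).add ((hn _).mul h2)).add
      ((hn _).mul (h2.mul h1))).add ((hn _).mul (h2.mul (h1.pow 3)))
  have hY : IsIntegral ℤ (8 + 2 * z + 4 * z ^ 2 + 6 * z ^ 3 - 5 * i * z + 2 * i * z ^ 2
      - 5 * i * z ^ 3) := by
    have : 8 + 2 * z + 4 * z ^ 2 + 6 * z ^ 3 - 5 * i * z + 2 * i * z ^ 2 - 5 * i * z ^ 3 =
        ((8 : ℤ) : K) + ((2 : ℤ) : K) * z + ((4 : ℤ) : K) * z ^ 2 + ((6 : ℤ) : K) * z ^ 3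
        + ((-5 : ℤ) : K) * (i * z) + ((2 : ℤ) : K) * (i * z ^ 2)
        + ((-5 : ℤ) : K) * (i * z ^ 3) := by
      push_cast
      ring
    rw [this]
    exact ((((((hn _).add ((hn _).mul h1)).add ((hn _).mul (h1.pow 2))).add
      ((hn _).mul (h1.pow 3))).add ((hn _).mul (h2.mul h1))).add
      ((hn _).mul (h2.mul (h1.pow 2)))).add ((hn _).mul (h2.mul (h1.pow 3)))
  refine isU_of_mul hX hY ?_
  unfold quo
  linear_combination (15 * z + 9 * z ^ 2 + 9 * z ^ 3 + 25 * z ^ 4 - 4 * z ^ 5 + 10 * z ^ 6) * hi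
    + (-17 + 14 * z - 10 * z ^ 2 - 24 * i + 4 * i * z - 12 * i * z ^ 2) * hz

/-- The generator `1 + y - y ^ 3`. -/
def gen {R : Type*} [CommRing R] (y : R) : R := 1 + y - y ^ 3

theorem two_add_eq {i z : K} (hi : i ^ 2 = -1) (hz : 1 + z + z ^ 2 + z ^ 3 + z ^ 4 = 0) :
    2 + i = quo i z * gen (-(i * z)) ^ 4 := by
  have h1 : gen (-(i * z)) ^ 2 = 3 + z + z ^ 2 + 2 * z ^ 3 - 2 * i * z - 2 * i * z ^ 3 := by
    unfold gen
    linear_combination (z ^ 2 + 2 * z ^ 4 + z ^ 6 + 2 * i * z ^ 3 - 2 * i ^ 2 * z ^ 4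
      - i ^ 2 * z ^ 6 + i ^ 4 * z ^ 6) * hi + (-2 + z - z ^ 2) * hz
  have h2 : (3 + z + z ^ 2 + 2 * z ^ 3 - 2 * i * z - 2 * i * z ^ 3) ^ 2 =
      16 + 9 * z + 6 * z ^ 2 + 17 * z ^ 3 + 8 * i - 8 * i * z + 8 * i * z ^ 2
        - 4 * i * z ^ 3 := by
    linear_combination (4 * z ^ 2 + 8 * z ^ 4 + 4 * z ^ 6) * hi +
      (-7 + 4 * z - 8 * i + 4 * i * z - 8 * i * z ^ 2) * hz
  have h3 : gen (-(i * z)) ^ 4 = (gen (-(i * z)) ^ 2) ^ 2 := by ring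
  rw [h3, h1, h2]
  unfold quo
  linear_combination -((-24 - 28 * z ^ 3 + 28 * z ^ 4 - 16 * z ^ 5 + 8 * z ^ 6) * hi +
    (-10 + 24 * z - 8 * z ^ 2 - 65 * i + 22 * i * z - 34 * i * z ^ 2) * hz)

/-- Elements of exact levels `1, ..., 5`. -/
theorem exists_level (ι : K →+* PadicAlgCl 5) {i z : K} (hi : i ^ 2 = -1)
    (hi7 : ‖ι i - 7‖ ≤ 25⁻¹) (hz : 1 + z + z ^ 2 + z ^ 3 + z ^ 4 = 0) (n : ℕ) (h1 : 1 ≤ n)
    (h5 : n ≤ 5) : ∃ w : K, (∃ (x : K) (a : ℤ), IsU x ∧ w = x * gen (-(i * z)) ^ a) ∧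
      ‖ι w - 1‖ = ‖ι z - 1‖ ^ n := by
  have hi' : (ι i) ^ 2 = -1 := by rw [← map_pow, hi, map_neg, map_one]
  have hz' : 1 + ι z + (ι z) ^ 2 + (ι z) ^ 3 + (ι z) ^ 4 = 0 := by
    have := congrArg ι hz
    simpa using this
  have hz2 : 1 + (z ^ 2) + (z ^ 2) ^ 2 + (z ^ 2) ^ 3 + (z ^ 2) ^ 4 = 0 := by
    linear_combination (1 - z + z ^ 2 - z ^ 3 + z ^ 4) * hz
  have hz3 : 1 + (z ^ 3) + (z ^ 3) ^ 2 + (z ^ 3) ^ 3 + (z ^ 3) ^ 4 = 0 := by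
    linear_combination (1 - z + z ^ 3 - z ^ 4 + z ^ 5 - z ^ 7 + z ^ 8) * hz
  have hz4 : 1 + (z ^ 4) + (z ^ 4) ^ 2 + (z ^ 4) ^ 3 + (z ^ 4) ^ 4 = 0 := by
    linear_combination (1 - z + z ^ 4 - z ^ 6 + z ^ 8 - z ^ 11 + z ^ 12) * hz
  have hu1 : IsU (u i (z ^ 1)) := by rw [pow_one]; exact isU_u hi hz
  have hu2 : IsU (u i (z ^ 2)) := isU_u hi hz2
  have hu3 : IsU (u i (z ^ 3)) := isU_u hi hz3
  have hu4 : IsU (u i (z ^ 4)) := isU_u hi hz4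
  have hmap : ∀ a : ℕ, ι (u i (z ^ a)) = u (ι i) ((ι z) ^ a) := by
    intro a
    simp [u]
  have hunit : ∀ x : K, IsU x → ∃ (x' : K) (a : ℤ), IsU x' ∧ x = x' * gen (-(i * z)) ^ a :=
    fun x hx => ⟨x, 0, hx, by rw [zpow_zero, mul_one]⟩
  interval_cases n
  · exact ⟨z, hunit _ (isU_z hz), by rw [pow_one]⟩
  · refine ⟨-(z + z ^ 4) ^ 2, hunit _ ((isU_real hz).pow 2).neg, ?_⟩
    rw [map_neg, map_pow, map_add, map_pow]
    exact level_two hz'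
  · refine ⟨u i (z ^ 1) * u i (z ^ 2) ^ 2 / (u i (z ^ 4) * u i (z ^ 3) ^ 2),
      hunit _ ((hu1.mul (hu2.pow 2)).div (hu4.mul (hu3.pow 2))), ?_⟩
    rw [map_div₀, map_mul, map_mul, map_pow, map_pow, hmap, hmap, hmap, hmap]
    exact level_three hi7 hz' hi'
  · refine ⟨-(2 + i), ⟨-quo i z, 4, (isU_quo hi hz).neg, ?_⟩, ?_⟩
    · rw [two_add_eq hi hz, neg_mul]
      norm_cast
    · rw [map_neg, map_add, map_ofNat]
      exact level_four hi7 hz'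
  · refine ⟨z ^ 2 * (u i (z ^ 1) * u i (z ^ 2) ^ 3) / (u i (z ^ 4) * u i (z ^ 3) ^ 3),
      hunit _ ((((isU_z hz).pow 2).mul (hu1.mul (hu2.pow 3))).div (hu4.mul (hu3.pow 3))), ?_⟩
    rw [map_div₀, map_mul, map_mul, map_mul, map_pow, map_pow, map_pow, hmap, hmap, hmap, hmap]
    exact level_five hi7 hz' hi'

/-- One of `± i` is close to `7`. -/
theorem exists_i (ι : K →+* PadicAlgCl 5) {i₀ : K} (hi : i₀ ^ 2 = -1) :
    ∃ i : K, i ^ 2 = -1 ∧ ‖ι i - 7‖ ≤ 25⁻¹ := by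
  have hi' : (ι i₀) ^ 2 = -1 := by rw [← map_pow, hi, map_neg, map_one]
  have h50 : ‖(-50 : PadicAlgCl 5)‖ = 25⁻¹ := by
    have h1 : (-50 : PadicAlgCl 5) = 5 * (5 * ((-2 : ℤ) : PadicAlgCl 5)) := by norm_num
    rw [h1, norm_mul, norm_mul, norm_five, norm_int_one (by norm_num)]
    norm_num
  have h1 : ‖ι i₀ - 7‖ * ‖ι i₀ + 7‖ = 25⁻¹ := by
    rw [← norm_mul, ← h50]
    congr 1
    linear_combination hi'
  have h14 : ‖(14 : PadicAlgCl 5)‖ = 1 := by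
    exact_mod_cast norm_int_one (E := PadicAlgCl 5) (n := 14) (by norm_num)
  have h2 : (1 : ℝ) ≤ max ‖ι i₀ + 7‖ ‖ι i₀ - 7‖ := by
    rw [← h14, show (14 : PadicAlgCl 5) = (ι i₀ + 7) + -(ι i₀ - 7) by ring,
      ← norm_neg (ι i₀ - 7)]
    exact IsUltrametricDist.norm_add_le_max _ _
  rcases le_max_iff.mp h2 with h3 | h3
  · refine ⟨i₀, hi, ?_⟩
    nlinarith [norm_nonneg (ι i₀ - 7)]
  · refine ⟨-i₀, by rw [neg_sq, hi], ?_⟩
    rw [map_neg, show -ι i₀ - 7 = -(ι i₀ + 7) by ring, norm_neg]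
    nlinarith [norm_nonneg (ι i₀ + 7)]

/-- The generator of the prime of `ι` is a uniformizer. -/
theorem norm_gen_two (ι : K →+* PadicAlgCl 5) {i z : K} (hi : i ^ 2 = -1)
    (hi7 : ‖ι i - 7‖ ≤ 25⁻¹) (hz : 1 + z + z ^ 2 + z ^ 3 + z ^ 4 = 0) :
    ‖ι (gen (i * z))‖ = ‖1 - ι z‖ := by
  have hi' : (ι i) ^ 2 = -1 := by rw [← map_pow, hi, map_neg, map_one]
  have hz' : 1 + ι z + (ι z) ^ 2 + (ι z) ^ 3 + (ι z) ^ 4 = 0 := by
    have := congrArg ι hz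
    simpa using this
  rw [show 1 - ι z = -(ι z - 1) by ring, norm_neg]
  obtain ⟨hr1, hr4, hr0⟩ := root hz'
  have hmap : ι (gen (i * z)) = gen (ι i * ι z) := by simp [gen]
  rw [hmap]
  generalize ι i = i at *
  generalize ι z = z at *
  have h4 : ‖(4 : PadicAlgCl 5)‖ = 1 := by
    exact_mod_cast norm_int_one (E := PadicAlgCl 5) (n := 4) (by norm_num)
  refine norm_of_sub (b := 4 * i * (z - 1)) (by rw [norm_mul, norm_mul, h4, norm_i hi7]; ring) ?_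
  have h1 : gen (i * z) - 4 * i * (z - 1) =
      (1 + 2 * i) + i * (z - 1) ^ 2 * (z + 2) := by
    unfold gen
    linear_combination (-i * z ^ 3) * hi'
  rw [h1]
  have h2 : ‖1 + 2 * i‖ < ‖z - 1‖ := by
    have := norm_lin hi7 (a := 1) (b := 2) (c := 5 * 3) (s := 5⁻¹) (by norm_num)
      (norm_five_mul (by norm_num)) (by norm_num)
    have h3 : ‖1 + 2 * i‖ = 5⁻¹ := by
      rw [← this]
      push_cast
      rfl
    rw [h3, ← hr4]
    calc ‖z - 1‖ ^ 4 < ‖z - 1‖ ^ 1 := pow_lt_pow_right_of_lt_one₀ hr0 hr1 (by norm_num)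
      _ = _ := pow_one _
  have h5 : ‖i * (z - 1) ^ 2 * (z + 2)‖ < ‖z - 1‖ := by
    have h6 : ‖z + 2‖ ≤ 1 := by
      refine (IsUltrametricDist.norm_add_le_max _ _).trans (max_le (norm_z hz').le ?_)
      exact_mod_cast norm_int_le (E := PadicAlgCl 5) 2
    rw [norm_mul, norm_mul, norm_pow, norm_i hi7, one_mul]
    calc ‖z - 1‖ ^ 2 * ‖z + 2‖ ≤ ‖z - 1‖ ^ 2 * 1 := by gcongr
      _ = ‖z - 1‖ ^ 2 := mul_one _
      _ < ‖z - 1‖ ^ 1 := pow_lt_pow_right_of_lt_one₀ hr0 hr1 (by norm_num)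
      _ = _ := pow_one _
  exact (IsUltrametricDist.norm_add_le_max _ _).trans_lt (max_lt h2 h5)

/-- The generator of the other prime is a unit at `ι`. -/
theorem norm_gen_one (ι : K →+* PadicAlgCl 5) {i z : K} (hi : i ^ 2 = -1)
    (hi7 : ‖ι i - 7‖ ≤ 25⁻¹) (hz : 1 + z + z ^ 2 + z ^ 3 + z ^ 4 = 0) :
    ‖ι (gen (-(i * z)))‖ = 1 := by
  have hi' : (ι i) ^ 2 = -1 := by rw [← map_pow, hi, map_neg, map_one]
  have hz' : 1 + ι z + (ι z) ^ 2 + (ι z) ^ 3 + (ι z) ^ 4 = 0 := by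
    have := congrArg ι hz
    simpa using this
  obtain ⟨hr1, hr4, hr0⟩ := root hz'
  have hmap : ι (gen (-(i * z))) = gen (-(ι i * ι z)) := by simp [gen]
  rw [hmap]
  generalize ι i = i at *
  generalize ι z = z at *
  have h2 : ‖1 - 2 * i‖ = 1 := by
    have := norm_lin hi7 (a := 1) (b := -2) (c := -13) (s := 1) (by norm_num)
      (norm_int_one (by norm_num)) (by norm_num)
    rw [← this]
    congr 1
    push_cast
    ring
  refine norm_of_sub h2 ?_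
  have h1 : gen (-(i * z)) - (1 - 2 * i) = -(i * ((z - 1) * (z ^ 2 + z + 2))) := by
    unfold gen
    linear_combination (i * z ^ 3) * hi'
  rw [h1, norm_neg, norm_mul, norm_mul, norm_i hi7, one_mul]
  have h3 : ‖z ^ 2 + z + 2‖ ≤ 1 := by
    refine (IsUltrametricDist.norm_add_le_max _ _).trans (max_le ?_ ?_)
    · refine (IsUltrametricDist.norm_add_le_max _ _).trans (max_le ?_ (norm_z hz').le)
      rw [norm_pow, norm_z hz', one_pow]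
    · exact_mod_cast norm_int_le (E := PadicAlgCl 5) 2
  calc ‖z - 1‖ * ‖z ^ 2 + z + 2‖ ≤ ‖z - 1‖ * 1 := by gcongr
    _ < 1 := by rw [mul_one]; exact hr1

end

end BKGen.Cyc.Five
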