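import Pool.Agent.Lib.MP_7c08ba_nt.Cyc.ElementsFive

/-!
The hypotheses of the rigidity criterion for `ℚ(ζ_20)` and `p = 5`.
-/

namespace BKGen.Cyc.Five

open NumberField Polynomial Ideal

attribute [local instance] fact5

section

variable {K : Type*} [Field K] [CharZero K]

theorem prim_z {z : K} (hz : 1 + z + z ^ 2 + z ^ 3 + z ^ 4 = 0) :
    IsPrimitiveRoot z 5 := by
  have h1 : z ^ 5 = 1 := by linear_combination (z - 1) * hz
  have h2 : z ≠ 1 := by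
    rintro rfl
    norm_num at hz
  have h3 := orderOf_eq_prime h1 h2
  have := IsPrimitiveRoot.orderOf z
  rwa [h3] at this

theorem prim_i {i : K} (hi : i ^ 2 = -1) : IsPrimitiveRoot i 4 := by
  have : Fact (Nat.Prime 2) := ⟨Nat.prime_two⟩
  have h1 : ¬ i ^ 2 ^ 1 = 1 := by
    rw [pow_one, hi]
    norm_num
  have h2 : i ^ 2 ^ (1 + 1) = 1 := by
    rw [show (2 : ℕ) ^ (1 + 1) = 2 * 2 by norm_num, pow_mul, hi]
    norm_num
  have h3 := orderOf_eq_prime_pow h1 h2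
  have := IsPrimitiveRoot.orderOf i
  rwa [h3] at this

theorem prim_mul {i z : K} (hi : i ^ 2 = -1) (hz : 1 + z + z ^ 2 + z ^ 3 + z ^ 4 = 0) :
    IsPrimitiveRoot (i * z) 20 := by
  have h1 := (prim_i hi).eq_orderOf
  have h2 := (prim_z hz).eq_orderOf
  have h3 : orderOf (i * z) = 20 := by
    rw [(Commute.all i z).orderOf_mul_eq_mul_orderOf_of_coprime (by rw [← h1, ← h2]; norm_num),
      ← h1, ← h2]
  have := IsPrimitiveRoot.orderOf (i * z)
  rwa [h3] at this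

end

variable {K : Type*} [Field K] [NumberField K] [IsCyclotomicExtension {20} ℚ K]

/-- The primes above `5`. -/
theorem prime_eq {i z : K} (hi : i ^ 2 = -1) (hz : 1 + z + z ^ 2 + z ^ 3 + z ^ 4 = 0)
    {I Z : 𝓞 K} (hI : (I : K) = i) (hZ : (Z : K) = z)
    (q : Ideal (𝓞 K)) (hq : q.IsPrime) (h5 : ((5 : ℕ) : 𝓞 K) ∈ q) (h2 : I - 2 ∈ q)
    (h1 : Z - 1 ∈ q) : q = span {gen (I * Z)} := by
  have hζ : IsPrimitiveRoot (i * z) 20 := prim_mul hi hz
  have hY : I * Z = hζ.toInteger := by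
    apply RingOfIntegers.ext
    change (I : K) * (Z : K) = i * z
    rw [hI, hZ]
  have hy := eqn_twenty hζ.toInteger_isPrimitiveRoot
  rw [hY]
  have h3 : hζ.toInteger - ((2 : ℤ) : 𝓞 K) ∈ q := by
    have : hζ.toInteger - ((2 : ℤ) : 𝓞 K) = (I - 2) * Z + 2 * (Z - 1) := by
      rw [← hY]
      push_cast
      ring
    rw [this]
    exact q.add_mem (q.mul_mem_right _ h2) (q.mul_mem_left _ h1)
  refine prime_eq_span hζ (p := 5) (by norm_num) 2 q hq h5 h3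
    (h₁ := 2 + hζ.toInteger + hζ.toInteger ^ 2 - 2 * hζ.toInteger ^ 3 + hζ.toInteger ^ 4
      + 3 * hζ.toInteger ^ 5 - 3 * hζ.toInteger ^ 6 + hζ.toInteger ^ 7)
    (h₂ := -1 + hζ.toInteger ^ 3 - hζ.toInteger ^ 4 - hζ.toInteger ^ 5 + 2 * hζ.toInteger ^ 6
      - hζ.toInteger ^ 7) ?_ ?_ ?_
  · have : gen hζ.toInteger = -((5 : ℕ) : 𝓞 K) + (hζ.toInteger - ((2 : ℤ) : 𝓞 K)) *
        (-hζ.toInteger ^ 2 - 2 * hζ.toInteger - 3) := by
      unfold gen
      push_cast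
      ring
    rw [this]
    exact q.add_mem (q.neg_mem h5) (q.mul_mem_right _ h3)
  · generalize hζ.toInteger = y at *
    unfold gen
    push_cast
    linear_combination (-3 + 3 * y - y ^ 2) * hy
  · generalize hζ.toInteger = y at *
    unfold gen
    push_cast
    linear_combination (1 - 2 * y + y ^ 2) * hy

/-- The hypotheses of the criterion. -/
theorem hyp (ι : K →+* PadicAlgCl 5) :
    ∃ (z : K) (g₁ g₂ : 𝓞 K) (v : ℕ → K), IsPrimitiveRoot z 5 ∧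
      (∀ x : K, ι x ∈ IntermediateField.adjoin ℚ_[5] {ι z}) ∧
      ‖ι (g₁ : K)‖ = 1 ∧ ‖ι (g₂ : K)‖ = ‖1 - ι z‖ ∧
      (∀ q : Ideal (𝓞 K), q.IsPrime → ((5 : ℕ) : 𝓞 K) ∈ q →
        q = Ideal.span {g₁} ∨ q = Ideal.span {g₂}) ∧
      (∀ j ∈ Finset.Icc 1 5, ∃ (u : (𝓞 K)ˣ) (a : ℤ), v j = ((u : 𝓞 K) : K) * (g₁ : K) ^ a) ∧
      (∀ j ∈ Finset.Icc 1 5, ‖ι (v j) - 1‖ = ‖1 - ι z‖ ^ j) := by
  -- the elements `i` and `z`
  have hζ := IsCyclotomicExtension.zeta_spec 20 ℚ K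
  obtain ⟨i, hi, hi7⟩ : ∃ i : K, i ^ 2 = -1 ∧ ‖ι i - 7‖ ≤ 25⁻¹ := by
    refine exists_i ι (i₀ := IsCyclotomicExtension.zeta 20 ℚ K ^ 5) ?_
    have h1 := hζ.pow_eq_one
    have h2 : (IsCyclotomicExtension.zeta 20 ℚ K) ^ 10 ≠ 1 :=
      hζ.pow_ne_one_of_pos_of_lt (by norm_num) (by norm_num)
    generalize IsCyclotomicExtension.zeta 20 ℚ K = y at *
    have h3 : (y ^ 10 - 1) * (y ^ 10 + 1) = 0 := by linear_combination h1
    linear_combination (mul_eq_zero.mp h3).resolve_left (sub_ne_zero.mpr h2)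
  obtain ⟨z, hz⟩ : ∃ z : K, 1 + z + z ^ 2 + z ^ 3 + z ^ 4 = 0 := by
    refine ⟨IsCyclotomicExtension.zeta 20 ℚ K ^ 4, ?_⟩
    have h1 := hζ.pow_eq_one
    have h2 : (IsCyclotomicExtension.zeta 20 ℚ K) ^ 4 ≠ 1 :=
      hζ.pow_ne_one_of_pos_of_lt (by norm_num) (by norm_num)
    generalize IsCyclotomicExtension.zeta 20 ℚ K = y at *
    have h3 : (y ^ 4 - 1) * (1 + y ^ 4 + (y ^ 4) ^ 2 + (y ^ 4) ^ 3 + (y ^ 4) ^ 4) = 0 := by
      linear_combination h1
    exact (mul_eq_zero.mp h3).resolve_left (sub_ne_zero.mpr h2)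
  have hni : (-i) ^ 2 = -1 := by rw [neg_sq, hi]
  let I : 𝓞 K := ⟨i, int_i hi⟩
  let Z : 𝓞 K := ⟨z, int_z hz⟩
  have hI : (I : K) = i := rfl
  have hZ : (Z : K) = z := rfl
  have hI2 : I ^ 2 = -1 := RingOfIntegers.ext hi
  have hZ4 : 1 + Z + Z ^ 2 + Z ^ 3 + Z ^ 4 = 0 := RingOfIntegers.ext hz
  have hg1 : ((gen (-(I * Z)) : 𝓞 K) : K) = gen (-(i * z)) := rfl
  have hg2 : ((gen (I * Z) : 𝓞 K) : K) = gen (i * z) := rfl
  choose! v hv1 hv2 using exists_level ι hi hi7 hz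
  have hsub : ‖1 - ι z‖ = ‖ι z - 1‖ := norm_sub_rev _ _
  refine ⟨z, gen (-(I * Z)), gen (I * Z), v, prim_z hz, ?_, ?_, ?_, ?_, ?_, ?_⟩
  · refine mem_of_root (prim_mul hi hz) ι _ ?_
    rw [map_mul]
    refine mul_mem ?_ (IntermediateField.mem_adjoin_simple_self _ _)
    refine mem_of_quadratic 0 1 (hensel_quadratic 0 1 2 (by norm_num) (by norm_num)) _ ?_ _
    rw [← map_pow, hi, map_neg, map_one]
    push_cast
    ring
  · rw [hg1]
    exact norm_gen_one ι hi hi7 hz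
  · rw [hg2]
    exact norm_gen_two ι hi hi7 hz
  · intro q hq h5
    have hZq : Z - 1 ∈ q := by
      have h1 : (Z - 1) ^ 4 ∈ q := by
        have : (Z - 1) ^ 4 = ((5 : ℕ) : 𝓞 K) * (-Z ^ 3 + Z ^ 2 - Z) := by
          push_cast
          linear_combination hZ4
        rw [this]
        exact q.mul_mem_right _ h5
      exact hq.mem_of_pow_mem _ h1
    have hIq : (I - 2) * (I + 2) ∈ q := by
      have : (I - 2) * (I + 2) = -((5 : ℕ) : 𝓞 K) := by
        push_cast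
        linear_combination hI2
      rw [this]
      exact q.neg_mem h5
    rcases hq.mem_or_mem hIq with h2 | h2
    · exact Or.inr (prime_eq hi hz hI hZ q hq h5 h2 hZq)
    · left
      have h3 : -I - 2 ∈ q := by
        have : -I - 2 = -(I + 2) := by ring
        rw [this]
        exact q.neg_mem h2
      have h4 := prime_eq (i := -i) (I := -I) hni hz rfl hZ q hq h5 h3 hZq
      rw [h4, neg_mul]
  · intro j hj
    rw [Finset.mem_Icc] at hj
    obtain ⟨x, a, ⟨u, hu⟩, hx⟩ := hv1 j hj.1 hj.2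
    exact ⟨u, a, by rw [hx, hu, hg1]⟩
  · intro j hj
    rw [Finset.mem_Icc] at hj
    rw [hsub]
    exact hv2 j hj.1 hj.2

omit [IsCyclotomicExtension {20} ℚ K] in
theorem class_five [IsCyclotomicExtension {20} ℚ K] : ¬ 5 ∣ classNumber K := by
  rw [classNumber_eq_one_iff.mpr (isPrincipalIdealRing_twenty K)]
  norm_num

omit [IsCyclotomicExtension {20} ℚ K] in
theorem rank_five [IsCyclotomicExtension {20} ℚ K] : Units.rank K + 2 ≤ 5 := by
  rw [rank_eq (n := 20) (by norm_num)]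
  decide

end BKGen.Cyc.Five
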