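import Pool.Agent.Lib.MP_7c08ba_nt.Cyc.Loc

/-!
The filtration of the units of `ℚ_p(ζ_p)`: elements of exact levels `1, ..., p` are independent
modulo `p`-th powers.
-/

namespace BKGen
namespace Cyc

open Polynomial IntermediateField

variable {p : ℕ} [Fact p.Prime] {Z : PadicAlgCl p}

lemma mul_near {a b : PadicAlgCl p} {r : ℝ} (hr1 : r ≤ 1) (ha : ‖a - 1‖ ≤ r)
    (hb : ‖b - 1‖ ≤ r) : ‖a * b - 1‖ ≤ r := by
  have h1 : a * b - 1 = (a - 1) * b + (b - 1) := by ring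
  have hb1 : ‖b‖ ≤ 1 := by
    have : b = (b - 1) + 1 := by ring
    rw [this]
    exact (norm_add_le_max' _ _).trans (max_le (hb.trans hr1) (by rw [norm_one]))
  have hr0 : 0 ≤ r := (norm_nonneg _).trans ha
  rw [h1]
  refine (norm_add_le_max' _ _).trans (max_le ?_ hb)
  rw [norm_mul]
  calc ‖a - 1‖ * ‖b‖ ≤ r * 1 := by gcongr
    _ = r := mul_one r

lemma pow_near_one {a : PadicAlgCl p} {r : ℝ} (hr0 : 0 ≤ r) (hr1 : r ≤ 1) (ha : ‖a - 1‖ ≤ r)
    (n : ℕ) : ‖a ^ n - 1‖ ≤ r := by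
  induction n with
  | zero => simpa using hr0
  | succ n ih =>
    rw [pow_succ]
    exact mul_near hr1 ih ha

lemma prod_near_one {ι : Type*} (s : Finset ι) {f : ι → PadicAlgCl p} {r : ℝ} (hr0 : 0 ≤ r)
    (hr1 : r ≤ 1) (h : ∀ i ∈ s, ‖f i - 1‖ ≤ r) : ‖∏ i ∈ s, f i - 1‖ ≤ r := by
  classical
  induction s using Finset.induction_on with
  | empty => simpa using hr0
  | insert a s ha ih =>
    rw [Finset.prod_insert ha]
    exact mul_near hr1 (h a (Finset.mem_insert_self _ _))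
      (ih fun i hi => h i (Finset.mem_insert_of_mem hi))

/-- exact level of a power -/
lemma pow_level {a : PadicAlgCl p} {r : ℝ} (hr0 : 0 < r) (hr1 : r < 1) (ha : ‖a - 1‖ = r)
    {n : ℕ} (hn : ¬ p ∣ n) : ‖a ^ n - 1‖ = r := by
  have h1 : (∑ i ∈ Finset.range n, a ^ i) * (a - 1) = a ^ n - 1 := geom_sum_mul a n
  have h2 : ‖∑ i ∈ Finset.range n, a ^ i‖ = 1 := by
    have h3 : ∑ i ∈ Finset.range n, a ^ i = (n : PadicAlgCl p) +
        ∑ i ∈ Finset.range n, (a ^ i - 1) := by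
      rw [Finset.sum_sub_distrib]
      simp
    have h4 : ‖∑ i ∈ Finset.range n, (a ^ i - 1)‖ ≤ r :=
      IsUltrametricDist.norm_sum_le_of_forall_le_of_nonneg hr0.le
        fun i _ => pow_near_one hr0.le hr1.le ha.le i
    have h5 : ‖(n : PadicAlgCl p)‖ = 1 := norm_natCast_eq_one hn
    rw [h3, IsUltrametricDist.norm_add_eq_max_of_norm_ne_norm (by rw [h5]; linarith), h5,
      max_eq_left (by linarith)]
  rw [← h1, norm_mul, h2, one_mul, ha]

/-- **Independence**. -/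
theorem levels_indep (hp2 : p ≠ 2) (hZ : IsPrimitiveRoot Z p) {w : ℕ → PadicAlgCl p}
    (hw : ∀ j ∈ Finset.Icc 1 p, w j ∈ adjoin ℚ_[p] {Z})
    (hlev : ∀ j ∈ Finset.Icc 1 p, ‖w j - 1‖ = ‖1 - Z‖ ^ j) {e : ℕ → ℕ}
    (h : ‖∏ j ∈ Finset.Icc 1 p, w j ^ e j - 1‖ ≤ ‖1 - Z‖ ^ (p + 1)) :
    ∀ j ∈ Finset.Icc 1 p, p ∣ e j := by
  have hp : p.Prime := Fact.out
  have hq0 := lam_pos hZ
  have hq1 := lam_lt hZ
  by_contra hcon
  push Not at hcon
  -- the first index whose exponent is not divisible by `p`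
  classical
  have hex : ∃ j, j ∈ Finset.Icc 1 p ∧ ¬ p ∣ e j := hcon
  obtain ⟨hj, hje⟩ := Nat.find_spec hex
  have hmin : ∀ i ∈ Finset.Icc 1 p, i < Nat.find hex → p ∣ e i := by
    intro i hi hlt
    by_contra hne
    exact Nat.find_min hex hlt ⟨hi, hne⟩
  set j := Nat.find hex with hjdef
  have hj1 := Finset.mem_Icc.mp hj
  have hsplit : ∏ i ∈ Finset.Icc 1 p, w i ^ e i = w j ^ e j *
      ∏ i ∈ (Finset.Icc 1 p).erase j, w i ^ e i := (Finset.mul_prod_erase _ _ hj).symm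
  have hrest : ‖∏ i ∈ (Finset.Icc 1 p).erase j, w i ^ e i - 1‖ ≤ ‖1 - Z‖ ^ (j + 1) := by
    refine prod_near_one _ (by positivity) (pow_le_one₀ hq0.le hq1.le) fun i hi => ?_
    rw [Finset.mem_erase] at hi
    have hi1 := Finset.mem_Icc.mp hi.2
    have hle : ‖w i - 1‖ ≤ ‖1 - Z‖ ^ i := (hlev i hi.2).le
    rcases lt_or_gt_of_ne hi.1 with hlt | hgt
    · obtain ⟨d, hd⟩ := hmin i hi.2 hlt
      rw [hd, pow_mul]
      refine (pow_near_one (r := ‖1 - Z‖ ^ (p + 1)) (by positivity) (pow_le_one₀ hq0.le hq1.le)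
        ?_ d).trans (pow_le_pow_of_le_one hq0.le hq1.le (by omega))
      -- `w i ^ p`
      have hl0 : 1 - Z ≠ 0 := norm_pos_iff.mp hq0
      have hZm : Z ∈ adjoin ℚ_[p] {Z} := mem_adjoin_simple_self _ _
      have h2 : w i = ((1 : ℕ) : PadicAlgCl p) + (1 - Z) * ((w i - 1) / (1 - Z)) := by
        field_simp
        push_cast
        ring
      have h3 := pow_near hp2 hZ (y := (w i - 1) / (1 - Z))
        (div_mem (sub_mem (hw i hi.2) (one_mem _)) (sub_mem (one_mem _) hZm)) (by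
          rw [norm_div, div_le_one hq0]
          refine hle.trans ?_
          exact (pow_le_of_le_one hq0.le hq1.le (by omega))) (t := 1) (fun h => hp.one_lt.ne' (Nat.dvd_one.mp h))
      rw [← h2] at h3
      simpa using h3
    · exact (pow_near_one (by positivity) (pow_le_one₀ hq0.le hq1.le) hle _).trans
        (pow_le_pow_of_le_one hq0.le hq1.le (by omega))
  have hmain : ‖w j ^ e j - 1‖ = ‖1 - Z‖ ^ j :=
    pow_level (pow_pos hq0 j) (pow_lt_one₀ hq0.le hq1 (by omega)) (hlev j hj) hje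
  have hlt : ‖1 - Z‖ ^ (j + 1) < ‖1 - Z‖ ^ j := pow_lt_pow_right_of_lt_one₀ hq0 hq1 (by omega)
  have h2 : ∏ i ∈ Finset.Icc 1 p, w i ^ e i - 1 = (w j ^ e j - 1) +
      w j ^ e j * (∏ i ∈ (Finset.Icc 1 p).erase j, w i ^ e i - 1) := by
    rw [hsplit]; ring
  have hwj : ‖w j ^ e j‖ ≤ 1 := by
    have : w j ^ e j = (w j ^ e j - 1) + 1 := by ring
    rw [this]
    refine (norm_add_le_max' _ _).trans (max_le ?_ (by rw [norm_one]))
    rw [hmain]
    exact pow_le_one₀ hq0.le hq1.le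
  have h3 : ‖w j ^ e j * (∏ i ∈ (Finset.Icc 1 p).erase j, w i ^ e i - 1)‖ ≤ ‖1 - Z‖ ^ (j + 1) := by
    rw [norm_mul]
    calc _ ≤ 1 * ‖1 - Z‖ ^ (j + 1) := by gcongr
      _ = _ := one_mul _
  rw [h2, IsUltrametricDist.norm_add_eq_max_of_norm_ne_norm (by rw [hmain]; linarith), hmain,
    max_eq_left (by linarith)] at h
  have h4 : ‖1 - Z‖ ^ (p + 1) < ‖1 - Z‖ ^ j := pow_lt_pow_right_of_lt_one₀ hq0 hq1 (by omega)
  linarith

end Cyc
end BKGen
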