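import Pool.Agent.Lib.MP_7c08ba_nt.Gen.LocalCyc

/-!
Local computations at `5`: units of `ℚ(ζ_20)` of exact levels `1, 2, 3, 5` and the element
`-(2 + i)` of exact level `4`.
-/

namespace BKGen.Cyc.Five

open BKGen.LocalCyc

theorem fact5 : Fact (Nat.Prime 5) := ⟨by norm_num⟩

attribute [local instance] fact5

variable {E : Type*} [NormedField E] [NormedAlgebra ℚ_[5] E] [IsUltrametricDist E]

/-- The unit `1 - i ζ^a`, with `z = ζ^a`. -/
def u {R : Type*} [CommRing R] (i z : R) : R := 1 - i * z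

theorem norm_five : ‖(5 : E)‖ = (5 : ℝ)⁻¹ := by
  have := norm_p (p := 5) (E := E)
  exact_mod_cast this

omit [NormedAlgebra ℚ_[5] E] in
theorem norm_of_sub {a b : E} {c : ℝ} (hb : ‖b‖ = c) (h : ‖a - b‖ < c) : ‖a‖ = c := by
  have h1 : a = (a - b) + b := by ring
  rw [h1, IsUltrametricDist.norm_add_eq_max_of_norm_ne_norm (by rw [hb]; exact h.ne), hb,
    max_eq_right h.le]

omit [IsUltrametricDist E] in
theorem norm_int_one {n : ℤ} (h : ¬ (5 : ℤ) ∣ n) : ‖(n : E)‖ = 1 := by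
  have h1 : (n : E) = algebraMap ℚ_[5] E (n : ℚ_[5]) := by rw [map_intCast]
  rw [h1, norm_algebraMap']
  have h2 : ‖(n : ℚ_[5])‖ ≤ 1 := Padic.norm_int_le_one n
  rcases h2.lt_or_eq with h3 | h3
  · rw [Padic.norm_intCast_lt_one_iff] at h3
    exact absurd (by exact_mod_cast h3) h
  · exact h3

omit [IsUltrametricDist E] in
theorem norm_int_le (n : ℤ) : ‖(n : E)‖ ≤ 1 := by
  have h1 : (n : E) = algebraMap ℚ_[5] E (n : ℚ_[5]) := by rw [map_intCast]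
  rw [h1, norm_algebraMap']
  exact Padic.norm_int_le_one n

section Root

variable {z : E} (hz : 1 + z + z ^ 2 + z ^ 3 + z ^ 4 = 0)

include hz

omit [NormedAlgebra ℚ_[5] E] [IsUltrametricDist E] in
theorem z_pow : z ^ 5 = 1 := by linear_combination (z - 1) * hz

theorem z_ne_one : z - 1 ≠ 0 := by
  intro h
  have h1 : z = 1 := by linear_combination h
  rw [h1] at hz
  have h2 : ‖(5 : E)‖ = 0 := by
    rw [show (5 : E) = 1 + 1 + 1 ^ 2 + 1 ^ 3 + 1 ^ 4 by norm_num, hz, norm_zero]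
  rw [norm_five] at h2
  norm_num at h2

theorem root : ‖z - 1‖ < 1 ∧ ‖z - 1‖ ^ 4 = 5⁻¹ ∧ 0 < ‖z - 1‖ := by
  have h1 := z_ne_one hz
  have h2 : (1 + (z - 1)) ^ 5 = 1 := by rw [add_sub_cancel]; exact z_pow hz
  obtain ⟨h3, h4, -⟩ := root_facts (p := 5) h1 h2
  refine ⟨h3, ?_, norm_pos_iff.mpr h1⟩
  simpa using h4

omit [NormedAlgebra ℚ_[5] E] [IsUltrametricDist E] in
theorem norm_z : ‖z‖ = 1 := by
  have h : ‖z‖ ^ 5 = 1 := by rw [← norm_pow, z_pow hz, norm_one]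
  exact (pow_eq_one_iff_of_nonneg (norm_nonneg _) (by norm_num)).mp h

theorem norm_z_pow_sub (a : ℕ) : ‖z ^ a - 1‖ < 1 := by
  obtain ⟨h1, -, -⟩ := root hz
  have h2 : z ^ a - 1 = (z - 1) * ∑ k ∈ Finset.range a, z ^ k := (mul_geom_sum z a).symm
  rw [h2, norm_mul]
  have h3 : ‖∑ k ∈ Finset.range a, z ^ k‖ ≤ 1 := by
    refine IsUltrametricDist.norm_sum_le_of_forall_le_of_nonneg zero_le_one fun k _ => ?_
    rw [norm_pow, norm_z hz, one_pow]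
  calc ‖z - 1‖ * ‖∑ k ∈ Finset.range a, z ^ k‖ ≤ ‖z - 1‖ * 1 := by gcongr
    _ < 1 := by rw [mul_one]; exact h1

theorem norm_z_sub_inv : ‖z - z ^ 4‖ = ‖z - 1‖ := by
  have h1 : z - z ^ 4 = -(z * ((z - 1) * (z ^ 2 + z + 1))) := by ring
  have h2 : ‖z ^ 2 + z + 1‖ = 1 := by
    refine norm_of_sub (b := ((3 : ℤ) : E)) (norm_int_one (by norm_num)) ?_
    have h3 : z ^ 2 + z + 1 - ((3 : ℤ) : E) = (z - 1) * (z + 2) := by push_cast; ring
    rw [h3, norm_mul]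
    have h4 : ‖z + 2‖ ≤ 1 := by
      refine (IsUltrametricDist.norm_add_le_max _ _).trans (max_le (norm_z hz).le ?_)
      exact_mod_cast norm_int_le (E := E) 2
    calc ‖z - 1‖ * ‖z + 2‖ ≤ ‖z - 1‖ * 1 := by gcongr
      _ < 1 := by rw [mul_one]; exact (root hz).1
  rw [h1, norm_neg, norm_mul, norm_mul, norm_z hz, h2, one_mul, mul_one]

omit [IsUltrametricDist E] in
theorem norm_two_mul : ‖(2 : E) * ((z - 1) ^ 2 * z ^ 4)‖ = ‖z - 1‖ ^ 2 := by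
  have h : ‖(2 : E)‖ = 1 := by exact_mod_cast norm_int_one (E := E) (n := 2) (by norm_num)
  rw [norm_mul, norm_mul, norm_pow, norm_pow, h, norm_z hz]
  ring

theorem five_lt : ‖(5 : E)‖ < ‖z - 1‖ ^ 2 := by
  obtain ⟨h1, h2, h3⟩ := root hz
  rw [norm_five, ← h2]
  exact pow_lt_pow_right_of_lt_one₀ h3 h1 (by norm_num)

/-- Level two. -/
theorem level_two : ‖-(z + z ^ 4) ^ 2 - 1‖ = ‖z - 1‖ ^ 2 := by
  have h1 : -(z + z ^ 4) ^ 2 - 1 = -(5 + (z - z ^ 4) ^ 2) := by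
    linear_combination (-4) * z_pow hz
  rw [h1, norm_neg]
  refine norm_of_sub (b := (z - z ^ 4) ^ 2) (by rw [norm_pow, norm_z_sub_inv hz]) ?_
  rw [add_sub_cancel_right]
  exact five_lt hz

theorem norm_real : ‖1 + 2 * (z + z ^ 4)‖ = ‖z - 1‖ ^ 2 := by
  refine norm_of_sub (norm_two_mul hz) ?_
  have h1 : 1 + 2 * (z + z ^ 4) - 2 * ((z - 1) ^ 2 * z ^ 4) = 5 := by
    linear_combination (4 - 2 * z) * z_pow hz
  rw [h1]
  exact five_lt hz

end Root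

section I

variable {i : E} (hi7 : ‖i - 7‖ ≤ 25⁻¹)

include hi7

/-- The value of an integral linear form at `i`. -/
theorem norm_lin {a b c : ℤ} {s : ℝ} (hs : 25⁻¹ < s) (hc : ‖(c : E)‖ = s) (h : c = a + 7 * b) :
    ‖(a : E) + b * i‖ = s := by
  refine norm_of_sub hc ?_
  have h1 : (a : E) + b * i - c = b * (i - 7) := by rw [h]; push_cast; ring
  rw [h1, norm_mul]
  calc ‖(b : E)‖ * ‖i - 7‖ ≤ 1 * 25⁻¹ := by
        gcongr
        exact norm_int_le b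
    _ < s := by linarith

omit hi7 in
theorem norm_five_mul {n : ℤ} (h : ¬ (5 : ℤ) ∣ n) : ‖((5 * n : ℤ) : E)‖ = 5⁻¹ := by
  push_cast
  rw [norm_mul, norm_five, norm_int_one h, mul_one]

theorem norm_i : ‖i‖ = 1 := by
  have := norm_lin hi7 (a := 0) (b := 1) (c := 7) (s := 1) (by norm_num)
    (norm_int_one (by norm_num)) (by norm_num)
  simpa using this

theorem norm_one_sub_i : ‖1 - i‖ = 1 := by
  have := norm_lin hi7 (a := 1) (b := -1) (c := -6) (s := 1) (by norm_num)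
    (norm_int_one (by norm_num)) (by norm_num)
  rw [← this]
  congr 1
  push_cast
  ring

theorem norm_br1 : ‖2 + 9 * i‖ = 5⁻¹ := by
  have := norm_lin hi7 (a := 2) (b := 9) (c := 5 * 13) (s := 5⁻¹) (by norm_num)
    (norm_five_mul (by norm_num)) (by norm_num)
  rw [← this]
  congr 1
  push_cast
  ring

theorem norm_br2 : ‖1 - 3 * i‖ = 5⁻¹ := by
  have := norm_lin hi7 (a := 1) (b := -3) (c := 5 * (-4)) (s := 5⁻¹) (by norm_num)
    (norm_five_mul (by norm_num)) (by norm_num)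
  rw [← this]
  congr 1
  push_cast
  ring

theorem norm_lev4 : ‖3 + i‖ = 5⁻¹ := by
  have := norm_lin hi7 (a := 3) (b := 1) (c := 5 * 2) (s := 5⁻¹) (by norm_num)
    (norm_five_mul (by norm_num)) (by norm_num)
  rw [← this]
  congr 1
  push_cast
  ring

variable {z : E} (hz : 1 + z + z ^ 2 + z ^ 3 + z ^ 4 = 0)

include hz

/-- Level four. -/
theorem level_four : ‖-(2 + i) - 1‖ = ‖z - 1‖ ^ 4 := by
  rw [(root hz).2.1, ← norm_lev4 hi7, ← norm_neg]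
  congr 1
  ring

theorem norm_u (a : ℕ) : ‖u i (z ^ a)‖ = 1 := by
  refine norm_of_sub (b := 1 - i) (norm_one_sub_i hi7) ?_
  have h1 : u i (z ^ a) - (1 - i) = -(i * (z ^ a - 1)) := by unfold u; ring
  rw [h1, norm_neg, norm_mul, norm_i hi7, one_mul]
  exact norm_z_pow_sub hz a

/-- Level three. -/
theorem level_three (hi : i ^ 2 = -1) :
    ‖u i (z ^ 1) * u i (z ^ 2) ^ 2 / (u i (z ^ 4) * u i (z ^ 3) ^ 2) - 1‖ = ‖z - 1‖ ^ 3 := by
  have h0 : u i (z ^ 4) * u i (z ^ 3) ^ 2 ≠ 0 := by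
    rw [← norm_ne_zero_iff, norm_mul, norm_pow, norm_u hi7 hz, norm_u hi7 hz]
    norm_num
  rw [div_sub_one h0, norm_div, norm_mul (u i (z ^ 4)), norm_pow (u i (z ^ 3)), norm_u hi7 hz,
    norm_u hi7 hz]
  have h1 : u i (z ^ 1) * u i (z ^ 2) ^ 2 - u i (z ^ 4) * u i (z ^ 3) ^ 2 =
      (1 - i) * ((z - z ^ 4) * (1 + 2 * (z + z ^ 4))) := by
    unfold u
    linear_combination (2 * z ^ 3 + z ^ 4 - z ^ 6 - 2 * z ^ 7 - i * z ^ 5 + i * z ^ 10) * hi +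
      (-z - z ^ 2 + 2 * z ^ 4 + 2 * i * z ^ 3 - 2 * i * z ^ 4 + i * z ^ 5 - i * z ^ 6) * hz
  rw [h1, norm_mul, norm_mul, norm_one_sub_i hi7, norm_z_sub_inv hz, norm_real hz]
  ring

/-- Level five. -/
theorem level_five (hi : i ^ 2 = -1) :
    ‖z ^ 2 * (u i (z ^ 1) * u i (z ^ 2) ^ 3) / (u i (z ^ 4) * u i (z ^ 3) ^ 3) - 1‖ =
      ‖z - 1‖ ^ 5 := by
  have h0 : u i (z ^ 4) * u i (z ^ 3) ^ 3 ≠ 0 := by
    rw [← norm_ne_zero_iff, norm_mul, norm_pow, norm_u hi7 hz, norm_u hi7 hz]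
    norm_num
  rw [div_sub_one h0, norm_div, norm_mul (u i (z ^ 4)), norm_pow (u i (z ^ 3)), norm_u hi7 hz,
    norm_u hi7 hz]
  have h1 : z ^ 2 * (u i (z ^ 1) * u i (z ^ 2) ^ 3) - u i (z ^ 4) * u i (z ^ 3) ^ 3 =
      z * ((z - z ^ 4) * ((2 + 9 * i) - (1 - 3 * i) * (z + z ^ 4 - 2))) := by
    unfold u
    linear_combination (3 * z ^ 5 - 3 * z ^ 7 - z ^ 9 + z ^ 13 - 3 * i * z ^ 7 - i * z ^ 8
        + i * z ^ 9 + 3 * i * z ^ 10 + i ^ 2 * z ^ 9 - i ^ 2 * z ^ 13) * hi +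
      (-1 + z - 3 * z ^ 2 + 4 * z ^ 3 - z ^ 4 + z ^ 8 - z ^ 9 - 3 * i * z ^ 2 + 2 * i * z ^ 3
        - i * z ^ 4 + 5 * i * z ^ 5 - 3 * i * z ^ 6) * hz
  have h2 : ‖(2 + 9 * i) - (1 - 3 * i) * (z + z ^ 4 - 2)‖ = 5⁻¹ := by
    refine norm_of_sub (norm_br1 hi7) ?_
    have h3 : z + z ^ 4 - 2 = (z - 1) ^ 2 * z ^ 4 := by
      linear_combination (2 - z) * z_pow hz
    rw [h3, sub_sub_cancel_left, norm_neg, norm_mul, norm_br2 hi7, norm_mul, norm_pow, norm_pow,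
      norm_z hz]
    have h4 : ‖z - 1‖ ^ 2 < 1 := pow_lt_one₀ (norm_nonneg _) (root hz).1 (by norm_num)
    linarith
  rw [h1, norm_mul, norm_mul, norm_z hz, norm_z_sub_inv hz, h2, ← (root hz).2.1]
  ring

end I

end BKGen.Cyc.Five
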