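import Pool.Agent.Lib.MP_7c08ba_nt.Gen.LocalCyc

/-!
Local computations at `7`: elements of `ℚ(ζ_21)` of exact levels `1, ..., 7`.
-/

namespace BKGen.Cyc.Seven

open BKGen.LocalCyc

theorem fact7 : Fact (Nat.Prime 7) := ⟨by norm_num⟩

attribute [local instance] fact7

variable {E : Type*} [NormedField E] [NormedAlgebra ℚ_[7] E] [IsUltrametricDist E]

/-- The unit `1 - ω ζ^a`, with `z = ζ^a`. -/
def u {R : Type*} [CommRing R] (w z : R) : R := 1 - w * z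

theorem norm_seven : ‖(7 : E)‖ = (7 : ℝ)⁻¹ := by
  have := norm_p (p := 7) (E := E)
  exact_mod_cast this

omit [NormedAlgebra ℚ_[7] E] in
theorem norm_of_sub {a b : E} {c : ℝ} (hb : ‖b‖ = c) (h : ‖a - b‖ < c) : ‖a‖ = c := by
  have h1 : a = (a - b) + b := by ring
  rw [h1, IsUltrametricDist.norm_add_eq_max_of_norm_ne_norm (by rw [hb]; exact h.ne), hb,
    max_eq_right h.le]

omit [IsUltrametricDist E] in
theorem norm_int_le (n : ℤ) : ‖(n : E)‖ ≤ 1 := by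
  have h1 : (n : E) = algebraMap ℚ_[7] E (n : ℚ_[7]) := by rw [map_intCast]
  rw [h1, norm_algebraMap']
  exact Padic.norm_int_le_one n

omit [IsUltrametricDist E] in
theorem norm_int_one {n : ℤ} (h : ¬ (7 : ℤ) ∣ n) : ‖(n : E)‖ = 1 := by
  have h1 : (n : E) = algebraMap ℚ_[7] E (n : ℚ_[7]) := by rw [map_intCast]
  rw [h1, norm_algebraMap']
  have h2 : ‖(n : ℚ_[7])‖ ≤ 1 := Padic.norm_int_le_one n
  rcases h2.lt_or_eq with h3 | h3
  · rw [Padic.norm_intCast_lt_one_iff] at h3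
    exact absurd (by exact_mod_cast h3) h
  · exact h3

section Root

variable {z : E} (hz : 1 + z + z ^ 2 + z ^ 3 + z ^ 4 + z ^ 5 + z ^ 6 = 0)

include hz

omit [NormedAlgebra ℚ_[7] E] [IsUltrametricDist E] in
theorem z_pow : z ^ 7 = 1 := by linear_combination (z - 1) * hz

theorem z_ne_one : z - 1 ≠ 0 := by
  intro h
  have h1 : z = 1 := by linear_combination h
  rw [h1] at hz
  have h2 : ‖(7 : E)‖ = 0 := by
    rw [show (7 : E) = 1 + 1 + 1 ^ 2 + 1 ^ 3 + 1 ^ 4 + 1 ^ 5 + 1 ^ 6 by norm_num, hz, norm_zero]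
  rw [norm_seven] at h2
  norm_num at h2

theorem root : ‖z - 1‖ < 1 ∧ ‖z - 1‖ ^ 6 = 7⁻¹ ∧ 0 < ‖z - 1‖ := by
  have h1 := z_ne_one hz
  have h2 : (1 + (z - 1)) ^ 7 = 1 := by rw [add_sub_cancel]; exact z_pow hz
  obtain ⟨h3, h4, -⟩ := root_facts (p := 7) h1 h2
  refine ⟨h3, ?_, norm_pos_iff.mpr h1⟩
  simpa using h4

omit [NormedAlgebra ℚ_[7] E] [IsUltrametricDist E] in
theorem norm_z : ‖z‖ = 1 := by
  have h : ‖z‖ ^ 7 = 1 := by rw [← norm_pow, z_pow hz, norm_one]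
  exact (pow_eq_one_iff_of_nonneg (norm_nonneg _) (by norm_num)).mp h

theorem norm_z_pow_sub (a : ℕ) : ‖z ^ a - 1‖ < 1 := by
  obtain ⟨h1, -, -⟩ := root hz
  have h2 : z ^ a - 1 = (z - 1) * ∑ k ∈ Finset.range a, z ^ k := (mul_geom_sum z a).symm
  rw [h2, norm_mul]
  have h3 : ‖∑ k ∈ Finset.range a, z ^ k‖ ≤ 1 := by
    refine IsUltrametricDist.norm_sum_le_of_forall_le_of_nonneg zero_le_one fun k _ => ?_
    rw [norm_pow, norm_z hz, one_pow]
  calc ‖z - 1‖ * ‖∑ k ∈ Finset.range a, z ^ k‖ ≤ ‖z - 1‖ * 1 := by gcongr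
    _ < 1 := by rw [mul_one]; exact h1

variable {w : E} (hw : ‖w - 30‖ ≤ 49⁻¹)

include hw

/-- The norm of an integral linear form at `ω`, lower precision. -/
theorem norm_lin_le {a b : ℤ} {v : ℕ} (hv : v ≤ 2) (h : (7 : ℤ) ^ v ∣ a + 30 * b) :
    ‖(a : E) + b * w‖ ≤ ‖z - 1‖ ^ (6 * v) := by
  obtain ⟨m, hm⟩ := h
  have h6 : ‖z - 1‖ ^ (6 * v) = (7 : ℝ)⁻¹ ^ v := by rw [pow_mul, (root hz).2.1]
  rw [h6]
  have h1 : (a : E) + b * w = 7 ^ v * m + b * (w - 30) := by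
    have h2 := congrArg (fun t : ℤ => (t : E)) hm
    push_cast at h2
    linear_combination h2
  rw [h1]
  refine (IsUltrametricDist.norm_add_le_max _ _).trans (max_le ?_ ?_)
  · rw [norm_mul, norm_pow, norm_seven]
    calc (7 : ℝ)⁻¹ ^ v * ‖(m : E)‖ ≤ (7 : ℝ)⁻¹ ^ v * 1 := by
          gcongr
          exact norm_int_le m
      _ = _ := mul_one _
  · rw [norm_mul]
    calc ‖(b : E)‖ * ‖w - 30‖ ≤ 1 * 49⁻¹ := by
          gcongr
          exact norm_int_le b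
      _ = (7 : ℝ)⁻¹ ^ 2 := by norm_num
      _ ≤ (7 : ℝ)⁻¹ ^ v := pow_le_pow_of_le_one (by norm_num) (by norm_num) hv

/-- The norm of an integral linear form at `ω`, exact. -/
theorem norm_lin_eq {a b m : ℤ} {v : ℕ} (hv : v ≤ 1) (h : a + 30 * b = (7 : ℤ) ^ v * m)
    (hm : ¬ (7 : ℤ) ∣ m) : ‖(a : E) + b * w‖ = ‖z - 1‖ ^ (6 * v) := by
  have h6 : ‖z - 1‖ ^ (6 * v) = (7 : ℝ)⁻¹ ^ v := by rw [pow_mul, (root hz).2.1]
  rw [h6]
  refine norm_of_sub (b := (7 : E) ^ v * (m : E)) (by rw [norm_mul, norm_pow, norm_seven,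
    norm_int_one hm, mul_one]) ?_
  have h1 : (a : E) + b * w - 7 ^ v * m = b * (w - 30) := by
    have h2 := congrArg (fun t : ℤ => (t : E)) h
    push_cast at h2
    linear_combination h2
  rw [h1, norm_mul]
  calc ‖(b : E)‖ * ‖w - 30‖ ≤ 1 * 49⁻¹ := by
        gcongr
        exact norm_int_le b
    _ < (7 : ℝ)⁻¹ ^ 1 := by norm_num
    _ ≤ (7 : ℝ)⁻¹ ^ v := pow_le_pow_of_le_one (by norm_num) (by norm_num) hv

/-- The level from the expansion in powers of `z - 1`. -/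
theorem level_of_expansion (A B : ℕ → ℤ) (n k₀ v₀ : ℕ) (m : ℤ) (hk₀ : k₀ < 6) (hv₀ : v₀ ≤ 1)
    (hn : n = 6 * v₀ + k₀) (hm : A k₀ + 30 * B k₀ = (7 : ℤ) ^ v₀ * m) (h7 : ¬ (7 : ℤ) ∣ m)
    (v : ℕ → ℕ) (h : ∀ k < 6, k ≠ k₀ → v k ≤ 2 ∧ (7 : ℤ) ^ v k ∣ A k + 30 * B k ∧ n < 6 * v k + k) :
    ‖∑ k ∈ Finset.range 6, ((A k : E) + B k * w) * (z - 1) ^ k‖ = ‖z - 1‖ ^ n := by
  obtain ⟨hr1, hr6, hr0⟩ := root hz
  have hmem : k₀ ∈ Finset.range 6 := Finset.mem_range.mpr hk₀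
  rw [← Finset.add_sum_erase _ _ hmem]
  refine norm_of_sub (b := ((A k₀ : E) + B k₀ * w) * (z - 1) ^ k₀) ?_ ?_
  · rw [norm_mul, norm_pow, norm_lin_eq hz hw hv₀ hm h7, hn, pow_add]
  · rw [add_sub_cancel_left]
    have hle : ‖∑ k ∈ (Finset.range 6).erase k₀, ((A k : E) + B k * w) * (z - 1) ^ k‖ ≤
        ‖z - 1‖ ^ (n + 1) := by
      refine IsUltrametricDist.norm_sum_le_of_forall_le_of_nonneg (by positivity) fun k hk => ?_
      rw [Finset.mem_erase, Finset.mem_range] at hk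
      obtain ⟨h1, h2, h3⟩ := h k hk.2 hk.1
      rw [norm_mul, norm_pow]
      calc ‖(A k : E) + B k * w‖ * ‖z - 1‖ ^ k ≤ ‖z - 1‖ ^ (6 * v k) * ‖z - 1‖ ^ k := by
            gcongr
            exact norm_lin_le hz hw h1 h2
        _ = ‖z - 1‖ ^ (6 * v k + k) := (pow_add _ _ _).symm
        _ ≤ ‖z - 1‖ ^ (n + 1) := pow_le_pow_of_le_one hr0.le hr1.le h3
    exact hle.trans_lt (pow_lt_pow_right_of_lt_one₀ hr0 hr1 (by omega))

theorem norm_w : ‖w‖ = 1 := by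
  have := norm_lin_eq hz hw (a := 0) (b := 1) (m := 30) (v := 0) (by norm_num) (by norm_num)
    (by norm_num)
  simpa using this

theorem norm_u (a : ℕ) : ‖u w (z ^ a)‖ = 1 := by
  have h0 := norm_lin_eq hz hw (a := 1) (b := -1) (m := -29) (v := 0) (by norm_num) (by norm_num)
    (by norm_num)
  rw [mul_zero, pow_zero] at h0
  refine norm_of_sub h0 ?_
  have h1 : u w (z ^ a) - (((1 : ℤ) : E) + ((-1 : ℤ) : E) * w) = -(w * (z ^ a - 1)) := by
    unfold u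
    push_cast
    ring
  rw [h1, norm_neg, norm_mul, norm_w hz hw, one_mul]
  exact norm_z_pow_sub hz a

theorem num_two (hww : w ^ 2 + w + 1 = 0) :
    ‖w ^ 2 * (z ^ 3 + z ^ 4) - 1‖ =
      ‖z - 1‖ ^ 2 := by
  have key := level_of_expansion hz hw (fun k => [-3, -7, -9, -5, -1, 0].getD k 0)
    (fun k => [-2, -7, -9, -5, -1, 0].getD k 0) 2 2 0 (-279) (by norm_num) (by norm_num)
    (by norm_num) (by norm_num) (by norm_num) (fun k => [1, 1, 0, 0, 0, 0].getD k 0) (by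
      intro k hk hne
      interval_cases k <;> first
        | exact absurd rfl hne
        | exact ⟨by decide, by decide, by decide⟩)
  rw [← key]
  congr 1
  simp only [Finset.sum_range_succ, Finset.sum_range_zero, List.getD_cons_zero,
    List.getD_cons_succ]
  push_cast
  linear_combination
    (z ^ 3 + z ^ 4) * hww
    + (0 : E) * hz

theorem num_three (hww : w ^ 2 + w + 1 = 0) :
    ‖z ^ 3 * u w (z ^ 1) - u w (z ^ 6)‖ =
      ‖z - 1‖ ^ 3 := by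
  have key := level_of_expansion hz hw (fun k => [0, 3, 3, 1, 0, 0].getD k 0)
    (fun k => [-7, -19, -26, -19, -7, -1].getD k 0) 3 3 0 (-569) (by norm_num) (by norm_num)
    (by norm_num) (by norm_num) (by norm_num) (fun k => [1, 1, 1, 0, 0, 0].getD k 0) (by
      intro k hk hne
      interval_cases k <;> first
        | exact absurd rfl hne
        | exact ⟨by decide, by decide, by decide⟩)
  rw [← key]
  congr 1
  simp only [Finset.sum_range_succ, Finset.sum_range_zero, List.getD_cons_zero,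
    List.getD_cons_succ, u]
  push_cast
  linear_combination
    (0 : E) * hww
    + (w) * hz

theorem num_four (hww : w ^ 2 + w + 1 = 0) :
    ‖-(w ^ 2 * ((z ^ 3 + z ^ 4) ^ 2 * (z ^ 6 + (1 + z)))) - 1‖ =
      ‖z - 1‖ ^ 4 := by
  have key := level_of_expansion hz hw (fun k => [-10, -35, -49, -35, -13, -2].getD k 0)
    (fun k => [-9, -35, -49, -35, -13, -2].getD k 0) 4 4 0 (-403) (by norm_num) (by norm_num)
    (by norm_num) (by norm_num) (by norm_num) (fun k => [1, 1, 1, 1, 0, 0].getD k 0) (by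
      intro k hk hne
      interval_cases k <;> first
        | exact absurd rfl hne
        | exact ⟨by decide, by decide, by decide⟩)
  rw [← key]
  congr 1
  simp only [Finset.sum_range_succ, Finset.sum_range_zero, List.getD_cons_zero,
    List.getD_cons_succ]
  push_cast
  linear_combination
    (-z ^ 6 - 3 * z ^ 7 - 3 * z ^ 8 - z ^ 9 - z ^ 12 - 2 * z ^ 13 - z ^ 14) * hww
    + (-1 + z + 2 * z ^ 2 + z ^ 3 - z ^ 5 - z ^ 6 + z ^ 7 + z ^ 8 - w + w * z + 2 * w * z ^ 2 + w *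
      z ^ 3 - w * z ^ 5 - w * z ^ 6 + w * z ^ 7 + w * z ^ 8) * hz

theorem num_five (hww : w ^ 2 + w + 1 = 0) :
    ‖z * (u w (z ^ 2) * u w (z ^ 3)) - u w (z ^ 5) * u w (z ^ 4)‖ =
      ‖z - 1‖ ^ 5 := by
  have key := level_of_expansion hz hw (fun k => [7, 18, 21, 15, 6, 1].getD k 0)
    (fun k => [7, 19, 28, 24, 11, 2].getD k 0) 5 5 0 (61) (by norm_num) (by norm_num)
    (by norm_num) (by norm_num) (by norm_num) (fun k => [1, 1, 1, 1, 1, 0].getD k 0) (by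
      intro k hk hne
      interval_cases k <;> first
        | exact absurd rfl hne
        | exact ⟨by decide, by decide, by decide⟩)
  rw [← key]
  congr 1
  simp only [Finset.sum_range_succ, Finset.sum_range_zero, List.getD_cons_zero,
    List.getD_cons_succ, u]
  push_cast
  linear_combination
    (z ^ 6 - z ^ 9) * hww
    + (-1 - z ^ 2 + z ^ 3 - w - w * z ^ 2 + w * z ^ 3) * hz

theorem num_seven (hww : w ^ 2 + w + 1 = 0) :
    ‖z ^ 6 * (u w (z ^ 1) ^ 3 * (u w (z ^ 5) ^ 2 * u w (z ^ 3))) -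
      u w (z ^ 6) ^ 3 * (u w (z ^ 2) ^ 2 * u w (z ^ 4))‖ =
      ‖z - 1‖ ^ 7 := by
  have key := level_of_expansion hz hw (fun k => [42, 96, 135, 106, 45, 8].getD k 0)
    (fun k => [-21, -55, -85, -67, -26, -4].getD k 0) 7 1 1 (-222) (by norm_num) (by norm_num)
    (by norm_num) (by norm_num) (by norm_num) (fun k => [2, 0, 1, 1, 1, 1].getD k 0) (by
      intro k hk hne
      interval_cases k <;> first
        | exact absurd rfl hne
        | exact ⟨by decide, by decide, by decide⟩)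
  rw [← key]
  congr 1
  simp only [Finset.sum_range_succ, Finset.sum_range_zero, List.getD_cons_zero,
    List.getD_cons_succ, u]
  push_cast
  linear_combination
    (-z ^ 4 - 2 * z ^ 6 - 4 * z ^ 8 + z ^ 9 - 3 * z ^ 10 + 3 * z ^ 11 - 3 * z ^ 12 + 6 * z ^ 13 -
      4 * z ^ 14 + 6 * z ^ 15 - 2 * z ^ 16 + z ^ 17 - z ^ 18 + 3 * z ^ 20 - 3 * z ^ 21 + 2 * z ^
      24 + z ^ 26 + w * z ^ 8 - w * z ^ 9 + 3 * w * z ^ 10 - 3 * w * z ^ 11 + 5 * w * z ^ 12 - 6 *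
      w * z ^ 13 + 7 * w * z ^ 14 - 6 * w * z ^ 15 - 3 * w * z ^ 17 + 4 * w * z ^ 18 - w * z ^ 19
      - w * z ^ 20 + 2 * w * z ^ 22 - w * z ^ 26 + w ^ 2 * z ^ 12 - w ^ 2 * z ^ 14 + 3 * w ^ 2 * z
      ^ 16 + 2 * w ^ 2 * z ^ 17 - 3 * w ^ 2 * z ^ 18 + w ^ 2 * z ^ 19 - 2 * w ^ 2 * z ^ 20 + 3 * w
      ^ 2 * z ^ 21 - 2 * w ^ 2 * z ^ 22 - 2 * w ^ 2 * z ^ 24 - 2 * w ^ 3 * z ^ 17 - w ^ 3 * z ^ 19
      + 3 * w ^ 3 * z ^ 20 - 3 * w ^ 3 * z ^ 21 + 2 * w ^ 3 * z ^ 24 + w ^ 3 * z ^ 26 + w ^ 4 * z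
      ^ 22 - w ^ 4 * z ^ 26) * hww
    + (-13 + 9 * z - 3 * z ^ 2 + z ^ 3 + 2 * z ^ 4 - 4 * z ^ 5 + 11 * z ^ 6 - 16 * z ^ 7 + 13 * z ^
      8 - 8 * z ^ 9 + 5 * z ^ 10 - 4 * z ^ 11 + 2 * z ^ 12 + 2 * z ^ 13 - 6 * z ^ 14 + 3 * z ^ 15
      + 2 * z ^ 17 - 2 * z ^ 18 + z ^ 19 - z ^ 20 + 6 * w - 4 * w * z + w * z ^ 3 + 5 * w * z ^ 4
      - 4 * w * z ^ 5 + w * z ^ 6 - 2 * w * z ^ 7 + 2 * w * z ^ 8 - 4 * w * z ^ 9 + 2 * w * z ^ 10
      + 3 * w * z ^ 11 - 4 * w * z ^ 12 + 3 * w * z ^ 13 - 5 * w * z ^ 14 + 5 * w * z ^ 15 - 2 * w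
      * z ^ 16 + 2 * w * z ^ 17 - 2 * w * z ^ 18) * hz

theorem num_six : ‖(2 + 3 * w) - 1‖ = ‖z - 1‖ ^ 6 := by
  have := norm_lin_eq hz hw (a := 1) (b := 3) (m := 13) (v := 1) (by norm_num) (by norm_num)
    (by norm_num)
  rw [mul_one] at this
  rw [← this]
  congr 1
  push_cast
  ring

end Root

end BKGen.Cyc.Seven
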