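import Pool.Agent.Lib.MP_7c08ba_nt.Gen.Unram

/-!
The local field `ℚ_p(ζ_p)`, `p` odd: approximation by integers and `p`-th powers of units.
-/

namespace BKGen
namespace Cyc

open Polynomial IntermediateField

variable {p : ℕ} [Fact p.Prime] {Z : PadicAlgCl p}

lemma norm_add_le_max' (x y : PadicAlgCl p) : ‖x + y‖ ≤ max ‖x‖ ‖y‖ :=
  IsUltrametricDist.norm_add_le_max _ _

lemma norm_intCast_le_one (n : ℤ) : ‖(n : PadicAlgCl p)‖ ≤ 1 := by
  have h := PadicAlgCl.norm_extends p (n : ℚ_[p])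
  rw [map_intCast] at h
  rw [h]
  exact Padic.norm_int_le_one n

lemma norm_natCast_le_one (n : ℕ) : ‖(n : PadicAlgCl p)‖ ≤ 1 := by
  have := norm_intCast_le_one (p := p) n
  simpa using this

lemma norm_algebraMap (c : ℚ_[p]) : ‖algebraMap ℚ_[p] (PadicAlgCl p) c‖ = ‖c‖ :=
  PadicAlgCl.norm_extends p c

lemma norm_Z (hZ : IsPrimitiveRoot Z p) : ‖Z‖ = 1 :=
  norm_root (Fact.out : p.Prime).ne_zero hZ.pow_eq_one

lemma geom_le_one (hZ : IsPrimitiveRoot Z p) (k : ℕ) : ‖∑ i ∈ Finset.range k, Z ^ i‖ ≤ 1 := by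
  refine IsUltrametricDist.norm_sum_le_of_forall_le_of_nonneg zero_le_one fun i _ => ?_
  rw [norm_pow, norm_Z hZ, one_pow]

/-- all `1 - Z ^ k` have the same norm -/
lemma norm_one_sub_pow (hZ : IsPrimitiveRoot Z p) {k : ℕ} (hk : ¬ p ∣ k) :
    ‖1 - Z ^ k‖ = ‖1 - Z‖ := by
  have hp : p.Prime := Fact.out
  have key : ∀ (W : PadicAlgCl p), IsPrimitiveRoot W p → ∀ m : ℕ, ‖1 - W ^ m‖ ≤ ‖1 - W‖ := by
    intro W hW m
    have h1 : (∑ i ∈ Finset.range m, W ^ i) * (1 - W) = 1 - W ^ m := by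
      have := geom_sum_mul W m
      linear_combination -this
    rw [← h1, norm_mul]
    calc ‖∑ i ∈ Finset.range m, W ^ i‖ * ‖1 - W‖ ≤ 1 * ‖1 - W‖ := by
          gcongr
          exact geom_le_one hW m
      _ = _ := one_mul _
  refine le_antisymm (key Z hZ k) ?_
  have hco : k.Coprime p := (Nat.coprime_comm.mp ((Nat.Prime.coprime_iff_not_dvd hp).mpr hk))
  have hW : IsPrimitiveRoot (Z ^ k) p := hZ.pow_of_coprime k hco
  obtain ⟨m, -, hm⟩ := Nat.exists_mul_mod_eq_one_of_coprime hco hp.one_lt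
  have h2 : (Z ^ k) ^ m = Z := by
    rw [← pow_mul, ← pow_mod_orderOf, ← hZ.eq_orderOf, hm, pow_one]
  have := key (Z ^ k) hW m
  rwa [h2] at this

/-- `‖1 - Z‖ ^ (p - 1) = ‖p‖` -/
lemma norm_lam_pow (hZ : IsPrimitiveRoot Z p) : ‖1 - Z‖ ^ (p - 1) = ‖(p : PadicAlgCl p)‖ := by
  have hp : p.Prime := Fact.out
  obtain ⟨n, hn⟩ : ∃ n, p = n + 1 := ⟨p - 1, by have := hp.pos; omega⟩
  have hZ' : IsPrimitiveRoot Z (n + 1) := hn ▸ hZ
  have h1 := hZ'.prod_one_sub_pow_eq_order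
  have h2 : ‖∏ k ∈ Finset.range n, (1 - Z ^ (k + 1))‖ = ‖1 - Z‖ ^ n := by
    rw [norm_prod, Finset.prod_congr rfl fun k hk => norm_one_sub_pow hZ (k := k + 1) ?_,
      Finset.prod_const, Finset.card_range]
    intro hd
    have := Nat.le_of_dvd (by omega) hd
    have := Finset.mem_range.mp hk
    omega
  rw [h1] at h2
  have h3 : p - 1 = n := by omega
  rw [h3, ← h2]
  congr 1
  have : ((p : ℕ) : PadicAlgCl p) = ((n + 1 : ℕ) : PadicAlgCl p) := by rw [← hn]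
  rw [this]
  push_cast
  ring

lemma norm_p : ‖(p : PadicAlgCl p)‖ = (p : ℝ)⁻¹ := by
  have h := norm_algebraMap (p := p) (p : ℚ_[p])
  rw [map_natCast] at h
  rw [h, Padic.norm_p]

lemma lam_pos (hZ : IsPrimitiveRoot Z p) : 0 < ‖1 - Z‖ := by
  rw [norm_pos_iff, sub_ne_zero]
  intro h
  have hp : p.Prime := Fact.out
  exact hZ.ne_one hp.one_lt h.symm

lemma lam_lt (hZ : IsPrimitiveRoot Z p) : ‖1 - Z‖ < 1 := by
  have hp : p.Prime := Fact.out
  by_contra h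
  push Not at h
  have h1 : 1 ≤ ‖1 - Z‖ ^ (p - 1) := one_le_pow₀ h
  rw [norm_lam_pow hZ, norm_p] at h1
  have h2 : (1 : ℝ) < p := by exact_mod_cast hp.one_lt
  have h3 := inv_lt_one_of_one_lt₀ h2
  linarith

/-- norms of the elements of `ℚ_p` -/
lemma norm_padic (hZ : IsPrimitiveRoot Z p) {c : ℚ_[p]} (hc : c ≠ 0) :
    ‖c‖ = ‖1 - Z‖ ^ (((p - 1 : ℕ) : ℤ) * c.valuation) := by
  rw [zpow_mul, zpow_natCast, norm_lam_pow hZ, norm_p, Padic.norm_eq_zpow_neg_valuation hc,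
    inv_zpow']

/-- the sum of terms of different norms -/
lemma term_le (hZ : IsPrimitiveRoot Z p) (c : ℕ → ℚ_[p]) (k : ℕ) (hk : k < p - 1) :
    ‖algebraMap ℚ_[p] (PadicAlgCl p) (c k) * (1 - Z) ^ k‖ ≤
      ‖∑ i ∈ Finset.range (p - 1), algebraMap ℚ_[p] (PadicAlgCl p) (c i) * (1 - Z) ^ i‖ := by
  set t : ℕ → PadicAlgCl p := fun i => algebraMap ℚ_[p] (PadicAlgCl p) (c i) * (1 - Z) ^ i with ht
  obtain ⟨k₀, hk₀, hmax⟩ := Finset.exists_max_image (Finset.range (p - 1)) (fun i => ‖t i‖)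
    ⟨k, Finset.mem_range.mpr hk⟩
  have hkk := hmax k (Finset.mem_range.mpr hk)
  refine hkk.trans ?_
  by_cases h0 : t k₀ = 0
  · rw [h0, norm_zero]; exact norm_nonneg _
  have hq0 := lam_pos hZ
  have hnorm : ∀ i, t i ≠ 0 → ‖t i‖ = ‖1 - Z‖ ^ (((p - 1 : ℕ) : ℤ) * (c i).valuation + i) := by
    intro i hi
    have hc : c i ≠ 0 := by
      rintro h
      apply hi
      simp [ht, h]
    rw [ht]
    simp only
    rw [norm_mul, norm_algebraMap, norm_pow, norm_padic hZ hc, zpow_add₀ hq0.ne', zpow_natCast]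
  have hlt : ∀ i ∈ Finset.range (p - 1), i ≠ k₀ → ‖t i‖ < ‖t k₀‖ := by
    intro i hi hne
    refine lt_of_le_of_ne (hmax i hi) fun heq => ?_
    by_cases hi0 : t i = 0
    · rw [hi0, norm_zero] at heq
      exact h0 (norm_eq_zero.mp heq.symm)
    rw [hnorm i hi0, hnorm k₀ h0] at heq
    have hinj := zpow_right_injective₀ hq0 (lam_lt hZ).ne heq
    have h1 := Finset.mem_range.mp hi
    have h2 := Finset.mem_range.mp hk₀
    have h3 : ((p - 1 : ℕ) : ℤ) * ((c i).valuation - (c k₀).valuation) = (k₀ : ℤ) - i := by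
      linear_combination hinj
    have h4 : |(k₀ : ℤ) - i| < ((p - 1 : ℕ) : ℤ) := by
      rw [abs_lt]; constructor <;> omega
    have h5 : ((p - 1 : ℕ) : ℤ) ∣ (k₀ : ℤ) - i := ⟨_, h3.symm⟩
    have h6 := Int.eq_zero_of_abs_lt_dvd h5 h4
    omega
  have hsum : ∑ i ∈ Finset.range (p - 1), t i = t k₀ + ∑ i ∈ (Finset.range (p - 1)).erase k₀, t i :=
    (Finset.add_sum_erase _ _ hk₀).symm
  have hrest : ‖∑ i ∈ (Finset.range (p - 1)).erase k₀, t i‖ < ‖t k₀‖ := by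
    have h0' : 0 < ‖t k₀‖ := norm_pos_iff.mpr h0
    rcases ((Finset.range (p - 1)).erase k₀).eq_empty_or_nonempty with he | hne
    · rw [he, Finset.sum_empty, norm_zero]; exact h0'
    obtain ⟨i, hi, hle⟩ := IsUltrametricDist.exists_norm_finset_sum_le_of_nonempty hne t
    refine hle.trans_lt ?_
    rw [Finset.mem_erase] at hi
    exact hlt i hi.2 hi.1
  rw [hsum, IsUltrametricDist.norm_add_eq_max_of_norm_ne_norm hrest.ne', max_eq_left hrest.le]

/-- expansion in powers of `1 - Z` -/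
lemma exists_expansion (hp2 : p ≠ 2) (hZ : IsPrimitiveRoot Z p) {x : PadicAlgCl p}
    (hx : x ∈ adjoin ℚ_[p] {Z}) : ∃ c : ℕ → ℚ_[p],
      x = ∑ i ∈ Finset.range (p - 1), algebraMap ℚ_[p] (PadicAlgCl p) (c i) * (1 - Z) ^ i := by
  have hp : p.Prime := Fact.out
  have hint : IsAlgebraic ℚ_[p] Z := Algebra.IsAlgebraic.isAlgebraic Z
  have hx1 : x ∈ (adjoin ℚ_[p] {Z}).toSubalgebra := hx
  rw [adjoin_simple_toSubalgebra_of_isAlgebraic hint, Algebra.adjoin_singleton_eq_range_aeval] at hx1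
  obtain ⟨f, hf⟩ := hx1
  have hf : aeval Z f = x := hf
  -- the polynomial of `1 - Z`
  set M : ℚ_[p][X] := (cyclotomic p ℚ_[p]).comp (1 - X) with hM
  have hdeg1 : (1 - X : ℚ_[p][X]).natDegree = 1 := by
    rw [← natDegree_neg, neg_sub]
    exact natDegree_X_sub_C (1 : ℚ_[p])
  have hMdeg : M.natDegree = p - 1 := by
    rw [hM, natDegree_comp, hdeg1, mul_one, natDegree_cyclotomic, Nat.totient_prime hp]
  have hM0 : M ≠ 0 := by
    intro h
    rw [h, natDegree_zero] at hMdeg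
    have := hp.two_le
    omega
  have hMeval : aeval (1 - Z) M = 0 := by
    rw [hM, aeval_comp]
    have h1 : aeval (1 - Z) (1 - X : ℚ_[p][X]) = Z := by simp
    rw [h1]
    have h2 := hZ.isRoot_cyclotomic hp.pos
    rw [aeval_def, ← eval_map, map_cyclotomic]
    exact h2
  set g : ℚ_[p][X] := (f.comp (1 - X)) % M with hg
  refine ⟨fun i => g.coeff i, ?_⟩
  have h1 : aeval (1 - Z) g = x := by
    have h2 : g = f.comp (1 - X) - M * (f.comp (1 - X) / M) := by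
      rw [hg, EuclideanDomain.mod_eq_sub_mul_div]
    rw [h2, map_sub, map_mul, hMeval, zero_mul, sub_zero, aeval_comp]
    simp only [map_sub, map_one, aeval_X, sub_sub_cancel]
    exact hf
  have hgdeg : g.natDegree < p - 1 := by
    rw [← hMdeg, hg]
    exact natDegree_mod_lt _ (by rw [hMdeg]; have := hp.two_le; omega)
  rw [← h1, aeval_eq_sum_range' hgdeg]
  refine Finset.sum_congr rfl fun i _ => ?_
  rw [Algebra.smul_def]

/-- approximation by an integer -/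
lemma exists_int_near (hp2 : p ≠ 2) (hZ : IsPrimitiveRoot Z p) {x : PadicAlgCl p}
    (hx : x ∈ adjoin ℚ_[p] {Z}) (h1 : ‖x‖ ≤ 1) : ∃ t : ℕ, ‖x - t‖ ≤ ‖1 - Z‖ := by
  have hp : p.Prime := Fact.out
  have hq0 := lam_pos hZ
  have hq1 := lam_lt hZ
  obtain ⟨c, hc⟩ := exists_expansion hp2 hZ hx
  have hpos : 0 < p - 1 := by have := hp.two_le; omega
  have hle : ∀ k, k < p - 1 → ‖algebraMap ℚ_[p] (PadicAlgCl p) (c k) * (1 - Z) ^ k‖ ≤ 1 := by
    intro k hk
    have := term_le hZ c k hk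
    rw [← hc] at this
    exact this.trans h1
  have hint : ∀ k, k < p - 1 → ‖c k‖ ≤ 1 := by
    intro k hk
    by_cases h0 : c k = 0
    · rw [h0, norm_zero]; exact zero_le_one
    have h2 := hle k hk
    rw [norm_mul, norm_algebraMap, norm_pow, norm_padic hZ h0, ← zpow_natCast,
      ← zpow_add₀ hq0.ne'] at h2
    have h3 : 0 ≤ ((p - 1 : ℕ) : ℤ) * (c k).valuation + k := by
      by_contra hneg
      push Not at hneg
      have : 1 < ‖1 - Z‖ ^ (((p - 1 : ℕ) : ℤ) * (c k).valuation + k) := by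
        apply one_lt_zpow_of_neg₀ hq0 hq1 hneg
      linarith
    have h4 : 0 ≤ (c k).valuation := by
      by_contra hneg
      push Not at hneg
      have h5 : ((p - 1 : ℕ) : ℤ) * (c k).valuation ≤ -((p - 1 : ℕ) : ℤ) := by nlinarith
      omega
    rw [norm_padic hZ h0]
    have : 0 ≤ ((p - 1 : ℕ) : ℤ) * (c k).valuation := by positivity
    exact zpow_le_one₀ hq0 hq1.le this
  -- the constant term
  let z : ℤ_[p] := ⟨c 0, hint 0 hpos⟩
  obtain ⟨t, ht⟩ : ∃ t : ℕ, ‖c 0 - t‖ ≤ (p : ℝ)⁻¹ := by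
    refine ⟨z.appr 1, ?_⟩
    have h := PadicInt.appr_spec 1 z
    rw [← PadicInt.norm_le_pow_iff_mem_span_pow] at h
    have h2 : ‖z - (z.appr 1 : ℤ_[p])‖ = ‖c 0 - (z.appr 1 : ℕ)‖ := rfl
    rw [h2] at h
    simpa using h
  refine ⟨t, ?_⟩
  have hsplit : x - t = algebraMap ℚ_[p] (PadicAlgCl p) (c 0 - t) +
      ∑ i ∈ Finset.range (p - 2), algebraMap ℚ_[p] (PadicAlgCl p) (c (i + 1)) * (1 - Z) ^ (i + 1) := by
    obtain ⟨m, hm⟩ : ∃ m, p - 1 = m + 1 := ⟨p - 2, by omega⟩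
    have hm2 : p - 2 = m := by omega
    rw [hc, hm, Finset.sum_range_succ', hm2]
    rw [map_sub, map_natCast]
    ring
  rw [hsplit]
  refine (norm_add_le_max' _ _).trans (max_le ?_ ?_)
  · rw [norm_algebraMap]
    refine ht.trans ?_
    rw [← norm_p, ← norm_lam_pow hZ]
    exact pow_le_of_le_one hq0.le hq1.le hpos.ne'
  · refine IsUltrametricDist.norm_sum_le_of_forall_le_of_nonneg hq0.le fun i hi => ?_
    have hi' := Finset.mem_range.mp hi
    rw [norm_mul, norm_algebraMap, norm_pow]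
    calc ‖c (i + 1)‖ * ‖1 - Z‖ ^ (i + 1) ≤ 1 * ‖1 - Z‖ ^ 1 := by
          gcongr ?_ * ?_
          · exact hint (i + 1) (by omega)
          · exact pow_le_pow_of_le_one hq0.le hq1.le (by omega)
      _ = _ := by rw [one_mul, pow_one]

/-- the value group -/
lemma exists_zpow (hp2 : p ≠ 2) (hZ : IsPrimitiveRoot Z p) {x : PadicAlgCl p}
    (hx : x ∈ adjoin ℚ_[p] {Z}) (h0 : x ≠ 0) : ∃ k : ℤ, ‖x‖ = ‖1 - Z‖ ^ k := by
  have hp : p.Prime := Fact.out
  have hq0 := lam_pos hZ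
  obtain ⟨c, hc⟩ := exists_expansion hp2 hZ hx
  have hpos : 0 < p - 1 := by have := hp.two_le; omega
  set t : ℕ → PadicAlgCl p := fun i => algebraMap ℚ_[p] (PadicAlgCl p) (c i) * (1 - Z) ^ i with ht
  obtain ⟨k₀, hk₀, hle⟩ := IsUltrametricDist.exists_norm_finset_sum_le_of_nonempty
    (t := Finset.range (p - 1)) ⟨0, Finset.mem_range.mpr hpos⟩ t
  have h1 : ‖x‖ = ‖t k₀‖ := by
    refine le_antisymm ?_ ?_
    · rw [hc]; exact hle
    · rw [hc]; exact term_le hZ c k₀ (Finset.mem_range.mp hk₀)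
  have h2 : t k₀ ≠ 0 := by
    intro h
    rw [h, norm_zero] at h1
    exact h0 (norm_eq_zero.mp h1)
  have h3 : c k₀ ≠ 0 := by
    intro h
    apply h2
    simp [ht, h]
  refine ⟨((p - 1 : ℕ) : ℤ) * (c k₀).valuation + k₀, ?_⟩
  rw [h1, ht]
  simp only
  rw [norm_mul, norm_algebraMap, norm_pow, norm_padic hZ h3, zpow_add₀ hq0.ne', zpow_natCast]

/-- `‖p + (1 - Z) ^ (p - 1)‖ ≤ ‖1 - Z‖ ^ p` -/
lemma norm_p_add (hp2 : p ≠ 2) (hZ : IsPrimitiveRoot Z p) :
    ‖(p : PadicAlgCl p) + (1 - Z) ^ (p - 1)‖ ≤ ‖1 - Z‖ ^ p := by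
  have hp : p.Prime := Fact.out
  have hq0 := lam_pos hZ
  have hq1 := lam_lt hZ
  have hodd : Odd p := hp.odd_of_ne_two hp2
  set l : PadicAlgCl p := 1 - Z with hl
  -- `1 = (1 - l) ^ p`
  have h1 : (-l + 1) ^ p = 1 := by
    have : -l + 1 = Z := by rw [hl]; ring
    rw [this, hZ.pow_eq_one]
  rw [add_pow] at h1
  obtain ⟨n, hn⟩ : ∃ n, p = n + 2 := ⟨p - 2, by have := hp.two_le; omega⟩
  have h2 : ∑ m ∈ Finset.range (p + 1), (-l) ^ m * 1 ^ (p - m) * (p.choose m : PadicAlgCl p) =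
      1 + (-l) * p + (∑ m ∈ Finset.range n, (-l) ^ (m + 2) * (p.choose (m + 2) : PadicAlgCl p)) +
        (-l) ^ p := by
    have h3 : p + 1 = (n + 1) + 1 + 1 := by omega
    rw [h3, Finset.sum_range_succ, Finset.sum_range_succ', Finset.sum_range_succ']
    simp only [one_pow, mul_one, Nat.choose_zero_right, pow_zero, Nat.cast_one, zero_add, pow_one,
      Nat.choose_one_right]
    have h4 : n + 1 + 1 = p := by omega
    rw [h4, Nat.choose_self, Nat.cast_one, mul_one]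
    have h5 : ∀ m, m + 1 + 1 = m + 2 := fun m => rfl
    simp only [h5]
    ring
  rw [h2] at h1
  have h6 : (-l) ^ p = -l ^ p := hodd.neg_pow l
  have hlp : l ^ p = l * l ^ (p - 1) := by
    rw [← pow_succ']
    congr 1
    omega
  have h7 : l * ((p : PadicAlgCl p) + l ^ (p - 1)) =
      ∑ m ∈ Finset.range n, (-l) ^ (m + 2) * (p.choose (m + 2) : PadicAlgCl p) := by
    rw [h6, hlp] at h1
    linear_combination -h1
  have h8 : ‖l * ((p : PadicAlgCl p) + l ^ (p - 1))‖ ≤ ‖l‖ ^ (p + 1) := by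
    rw [h7]
    refine IsUltrametricDist.norm_sum_le_of_forall_le_of_nonneg (by positivity) fun m hm => ?_
    have hm' := Finset.mem_range.mp hm
    obtain ⟨d, hd⟩ := hp.dvd_choose_self (k := m + 2) (by omega) (by omega)
    rw [norm_mul, norm_pow, norm_neg, hd, Nat.cast_mul, norm_mul, ← norm_lam_pow hZ]
    calc ‖l‖ ^ (m + 2) * (‖1 - Z‖ ^ (p - 1) * ‖(d : PadicAlgCl p)‖) ≤
        ‖l‖ ^ 2 * (‖l‖ ^ (p - 1) * 1) := by
          gcongr ?_ * (?_ * ?_)
          · exact pow_le_pow_of_le_one hq0.le hq1.le (by omega)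
          · exact norm_natCast_le_one d
      _ = ‖l‖ ^ (p + 1) := by
          rw [mul_one, ← pow_add]
          congr 1
          omega
  rw [norm_mul, pow_succ'] at h8
  exact le_of_mul_le_mul_left h8 hq0

/-- `p`-th powers are determined modulo `(1 - Z) ^ (p + 1)` -/
lemma pow_near (hp2 : p ≠ 2) (hZ : IsPrimitiveRoot Z p) {y : PadicAlgCl p}
    (hy : y ∈ adjoin ℚ_[p] {Z}) (h1 : ‖y‖ ≤ 1) {t : ℕ} (ht : ¬ p ∣ t) :
    ‖((t : PadicAlgCl p) + (1 - Z) * y) ^ p - (t : PadicAlgCl p) ^ p‖ ≤ ‖1 - Z‖ ^ (p + 1) := by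
  have hp : p.Prime := Fact.out
  have hq0 := lam_pos hZ
  have hq1 := lam_lt hZ
  set l : PadicAlgCl p := 1 - Z with hl
  obtain ⟨s, hs⟩ := exists_int_near hp2 hZ hy h1
  obtain ⟨n, hn⟩ : ∃ n, p = n + 2 := ⟨p - 2, by have := hp.two_le; omega⟩
  have h2 : (l * y + (t : PadicAlgCl p)) ^ p = (t : PadicAlgCl p) ^ p +
      (l * y) * (t : PadicAlgCl p) ^ (p - 1) * p +
      (∑ m ∈ Finset.range n, (l * y) ^ (m + 2) * (t : PadicAlgCl p) ^ (p - (m + 2)) *
        (p.choose (m + 2) : PadicAlgCl p)) + (l * y) ^ p := by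
    rw [add_pow]
    have h3 : p + 1 = (n + 1) + 1 + 1 := by omega
    rw [h3, Finset.sum_range_succ, Finset.sum_range_succ', Finset.sum_range_succ']
    simp only [mul_one, Nat.choose_zero_right, pow_zero, Nat.cast_one, zero_add, pow_one,
      Nat.choose_one_right]
    have h4 : n + 1 + 1 = p := by omega
    rw [h4, Nat.choose_self, Nat.cast_one, mul_one, Nat.sub_self, pow_zero, mul_one]
    have h5 : ∀ m, m + 1 + 1 = m + 2 := fun m => rfl
    simp only [h5, one_mul, Nat.sub_zero]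
    ring
  have hlp : (l * y) ^ p = l * (l ^ (p - 1) * y ^ p) := by
    rw [mul_pow]
    have : l ^ p = l * l ^ (p - 1) := by
      rw [← pow_succ']
      congr 1
      omega
    rw [this]
    ring
  have h3 : ((t : PadicAlgCl p) + l * y) ^ p - (t : PadicAlgCl p) ^ p =
      l * (((p : PadicAlgCl p) + l ^ (p - 1)) * ((t : PadicAlgCl p) ^ (p - 1) * y) +
        l ^ (p - 1) * ((y ^ p - (s : PadicAlgCl p) ^ p) +
          ((s : PadicAlgCl p) ^ p - (s : PadicAlgCl p) * (t : PadicAlgCl p) ^ (p - 1)) -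
          (y - s) * (t : PadicAlgCl p) ^ (p - 1))) +
      (∑ m ∈ Finset.range n, (l * y) ^ (m + 2) * (t : PadicAlgCl p) ^ (p - (m + 2)) *
        (p.choose (m + 2) : PadicAlgCl p)) := by
    rw [add_comm (t : PadicAlgCl p) (l * y), h2, hlp]
    ring
  have hnl : ‖l‖ ≤ 1 := hq1.le
  have hpnorm : ‖(p : PadicAlgCl p)‖ ≤ ‖l‖ := by
    rw [← norm_lam_pow hZ]
    exact pow_le_of_le_one hq0.le hq1.le (by have := hp.two_le; omega)
  -- `y ^ p ≡ s ^ p`
  have e1 : ‖y ^ p - (s : PadicAlgCl p) ^ p‖ ≤ ‖l‖ := by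
    have h4 : (y - s) * ∑ i ∈ Finset.range p, y ^ i * (s : PadicAlgCl p) ^ (p - 1 - i) =
        y ^ p - (s : PadicAlgCl p) ^ p := by
      rw [mul_comm]
      exact (Commute.all y (s : PadicAlgCl p)).geom_sum₂_mul p
    rw [← h4, norm_mul]
    calc ‖y - s‖ * ‖∑ i ∈ Finset.range p, y ^ i * (s : PadicAlgCl p) ^ (p - 1 - i)‖ ≤ ‖l‖ * 1 := by
          gcongr
          refine IsUltrametricDist.norm_sum_le_of_forall_le_of_nonneg zero_le_one fun i _ => ?_
          rw [norm_mul, norm_pow, norm_pow]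
          exact mul_le_one₀ (pow_le_one₀ (norm_nonneg _) h1) (by positivity)
            (pow_le_one₀ (norm_nonneg _) (norm_natCast_le_one s))
      _ = _ := mul_one _
  -- integers
  have e2 : ‖(s : PadicAlgCl p) ^ p - (s : PadicAlgCl p) * (t : PadicAlgCl p) ^ (p - 1)‖ ≤ ‖l‖ := by
    have hd : (p : ℤ) ∣ (s : ℤ) ^ p - (s : ℤ) * (t : ℤ) ^ (p - 1) := by
      rw [← ZMod.intCast_zmod_eq_zero_iff_dvd]
      push_cast
      have ht' : (t : ZMod p) ≠ 0 := by
        rwa [Ne, ZMod.natCast_eq_zero_iff]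
      rw [ZMod.pow_card, ZMod.pow_card_sub_one_eq_one ht', mul_one, sub_self]
    obtain ⟨d, hd⟩ := hd
    have h5 : (s : PadicAlgCl p) ^ p - (s : PadicAlgCl p) * (t : PadicAlgCl p) ^ (p - 1) =
        (p : PadicAlgCl p) * (d : PadicAlgCl p) := by
      have := congrArg (Int.cast : ℤ → PadicAlgCl p) hd
      push_cast at this
      exact this
    rw [h5, norm_mul]
    calc ‖(p : PadicAlgCl p)‖ * ‖(d : PadicAlgCl p)‖ ≤ ‖l‖ * 1 := by
          gcongr
          exact norm_intCast_le_one d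
      _ = _ := mul_one _
  have e3 : ‖(y - s) * (t : PadicAlgCl p) ^ (p - 1)‖ ≤ ‖l‖ := by
    rw [norm_mul, norm_pow]
    calc ‖y - s‖ * ‖(t : PadicAlgCl p)‖ ^ (p - 1) ≤ ‖l‖ * 1 := by
          gcongr
          exact pow_le_one₀ (norm_nonneg _) (norm_natCast_le_one t)
      _ = _ := mul_one _
  have e4 : ‖l ^ (p - 1) * ((y ^ p - (s : PadicAlgCl p) ^ p) +
          ((s : PadicAlgCl p) ^ p - (s : PadicAlgCl p) * (t : PadicAlgCl p) ^ (p - 1)) -
          (y - s) * (t : PadicAlgCl p) ^ (p - 1))‖ ≤ ‖l‖ ^ p := by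
    rw [norm_mul, norm_pow]
    have : ‖l‖ ^ p = ‖l‖ ^ (p - 1) * ‖l‖ := by
      rw [← pow_succ]
      congr 1
      omega
    rw [this]
    gcongr
    refine norm_sub_le_max.trans (max_le ?_ e3)
    exact (norm_add_le_max' _ _).trans (max_le e1 e2)
  have e5 : ‖((p : PadicAlgCl p) + l ^ (p - 1)) * ((t : PadicAlgCl p) ^ (p - 1) * y)‖ ≤ ‖l‖ ^ p := by
    rw [norm_mul, norm_mul, norm_pow]
    calc ‖(p : PadicAlgCl p) + l ^ (p - 1)‖ * (‖(t : PadicAlgCl p)‖ ^ (p - 1) * ‖y‖) ≤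
        ‖l‖ ^ p * (1 * 1) := by
          gcongr
          · exact norm_p_add hp2 hZ
          · exact pow_le_one₀ (norm_nonneg _) (norm_natCast_le_one t)
      _ = _ := by ring
  rw [h3]
  refine (norm_add_le_max' _ _).trans (max_le ?_ ?_)
  · rw [norm_mul, pow_succ']
    gcongr
    exact (norm_add_le_max' _ _).trans (max_le e5 e4)
  · refine IsUltrametricDist.norm_sum_le_of_forall_le_of_nonneg (by positivity) fun m hm => ?_
    have hm' := Finset.mem_range.mp hm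
    obtain ⟨d, hd⟩ := hp.dvd_choose_self (k := m + 2) (by omega) (by omega)
    rw [norm_mul, norm_mul, norm_pow, norm_pow, norm_mul, hd, Nat.cast_mul, norm_mul,
      ← norm_lam_pow hZ, mul_pow]
    calc ‖l‖ ^ (m + 2) * ‖y‖ ^ (m + 2) * ‖(t : PadicAlgCl p)‖ ^ (p - (m + 2)) *
          (‖1 - Z‖ ^ (p - 1) * ‖(d : PadicAlgCl p)‖) ≤
        ‖l‖ ^ 2 * 1 * 1 * (‖l‖ ^ (p - 1) * 1) := by
          gcongr ?_ * ?_ * ?_ * (?_ * ?_)
          · exact pow_le_pow_of_le_one hq0.le hq1.le (by omega)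
          · exact pow_le_one₀ (norm_nonneg _) h1
          · exact pow_le_one₀ (norm_nonneg _) (norm_natCast_le_one t)
          · exact norm_natCast_le_one d
      _ = ‖l‖ ^ (p + 1) := by
          rw [mul_one, mul_one, mul_one, ← pow_add]
          congr 1
          omega

/-- a unit has an integral residue prime to `p` -/
lemma exists_unit_near (hp2 : p ≠ 2) (hZ : IsPrimitiveRoot Z p) {x : PadicAlgCl p}
    (hx : x ∈ adjoin ℚ_[p] {Z}) (h1 : ‖x‖ = 1) : ∃ t : ℕ, ¬ p ∣ t ∧ ∃ y ∈ adjoin ℚ_[p] {Z},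
      ‖y‖ ≤ 1 ∧ x = t + (1 - Z) * y := by
  have hq0 := lam_pos hZ
  have hq1 := lam_lt hZ
  obtain ⟨t, ht⟩ := exists_int_near hp2 hZ hx h1.le
  have hZm : Z ∈ adjoin ℚ_[p] {Z} := mem_adjoin_simple_self _ _
  have hl0 : 1 - Z ≠ 0 := norm_pos_iff.mp hq0
  refine ⟨t, ?_, (x - t) / (1 - Z), ?_, ?_, ?_⟩
  · rintro ⟨d, rfl⟩
    have h2 : ‖(((p * d : ℕ)) : PadicAlgCl p)‖ < 1 := by
      rw [Nat.cast_mul, norm_mul]
      calc ‖(p : PadicAlgCl p)‖ * ‖(d : PadicAlgCl p)‖ ≤ ‖(p : PadicAlgCl p)‖ * 1 := by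
            gcongr
            exact norm_natCast_le_one d
        _ < 1 := by rw [mul_one]; exact norm_l_lt
    have h3 : ‖x‖ < 1 := by
      have : x = (x - ((p * d : ℕ) : PadicAlgCl p)) + ((p * d : ℕ) : PadicAlgCl p) := by ring
      rw [this]
      exact (norm_add_le_max' _ _).trans_lt (max_lt (ht.trans_lt hq1) h2)
    linarith
  · exact div_mem (sub_mem hx (_root_.natCast_mem _ t)) (sub_mem (one_mem _) hZm)
  · rw [norm_div, div_le_one hq0]
    exact ht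
  · field_simp
    ring

/-- `p`-th powers of units -/
lemma pow_unit_near (hp2 : p ≠ 2) (hZ : IsPrimitiveRoot Z p) {x : PadicAlgCl p}
    (hx : x ∈ adjoin ℚ_[p] {Z}) (h1 : ‖x‖ = 1) : ‖(x ^ p) ^ (p - 1) - 1‖ ≤ ‖1 - Z‖ ^ (p + 1) := by
  have hp : p.Prime := Fact.out
  have hq0 := lam_pos hZ
  have hq1 := lam_lt hZ
  obtain ⟨t, ht, y, hy, hy1, hxy⟩ := exists_unit_near hp2 hZ hx h1
  have h2 := pow_near hp2 hZ hy hy1 ht
  rw [← hxy] at h2
  -- first the difference of the `(p-1)`-th powers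
  have h3 : ‖(x ^ p) ^ (p - 1) - ((t : PadicAlgCl p) ^ p) ^ (p - 1)‖ ≤ ‖1 - Z‖ ^ (p + 1) := by
    have h4 : (x ^ p - (t : PadicAlgCl p) ^ p) * ∑ i ∈ Finset.range (p - 1),
        (x ^ p) ^ i * ((t : PadicAlgCl p) ^ p) ^ (p - 1 - 1 - i) =
        (x ^ p) ^ (p - 1) - ((t : PadicAlgCl p) ^ p) ^ (p - 1) := by
      rw [mul_comm]
      exact (Commute.all (x ^ p) ((t : PadicAlgCl p) ^ p)).geom_sum₂_mul (p - 1)
    rw [← h4, norm_mul]
    calc _ ≤ ‖1 - Z‖ ^ (p + 1) * 1 := by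
          gcongr
          refine IsUltrametricDist.norm_sum_le_of_forall_le_of_nonneg zero_le_one fun i _ => ?_
          rw [norm_mul, norm_pow, norm_pow, norm_pow, norm_pow, h1, one_pow, one_pow, one_mul]
          exact pow_le_one₀ (by positivity) (pow_le_one₀ (norm_nonneg _) (norm_natCast_le_one t))
      _ = _ := mul_one _
  have h5 : ‖((t : PadicAlgCl p) ^ p) ^ (p - 1) - 1‖ ≤ ‖1 - Z‖ ^ (p + 1) := by
    have hco : Nat.Coprime t (p ^ 2) :=
      Nat.Coprime.pow_right 2 (Nat.coprime_comm.mp ((Nat.Prime.coprime_iff_not_dvd hp).mpr ht))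
    have h6 := Nat.ModEq.pow_totient hco
    rw [Nat.totient_prime_pow hp (by norm_num)] at h6
    simp only [Nat.add_one_sub_one, pow_one] at h6
    have h7 : ((p ^ 2 : ℕ) : ℤ) ∣ (t : ℤ) ^ (p * (p - 1)) - 1 := by
      have h8 := (Nat.modEq_iff_dvd.mp h6.symm)
      push_cast at h8 ⊢
      simpa using h8
    obtain ⟨d, hd⟩ := h7
    have h8 : ((t : PadicAlgCl p) ^ p) ^ (p - 1) - 1 = (p : PadicAlgCl p) ^ 2 * (d : PadicAlgCl p) := by
      have := congrArg (Int.cast : ℤ → PadicAlgCl p) hd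
      push_cast at this
      rw [← pow_mul]
      exact this
    rw [h8, norm_mul, norm_pow, ← norm_lam_pow hZ]
    calc (‖1 - Z‖ ^ (p - 1)) ^ 2 * ‖(d : PadicAlgCl p)‖ ≤ (‖1 - Z‖ ^ (p - 1)) ^ 2 * 1 := by
          gcongr
          exact norm_intCast_le_one d
      _ = ‖1 - Z‖ ^ ((p - 1) * 2) := by rw [mul_one, ← pow_mul]
      _ ≤ _ := by
          have := hp.two_le
          exact pow_le_pow_of_le_one hq0.le hq1.le (by omega)
  have h6 : (x ^ p) ^ (p - 1) - 1 = ((x ^ p) ^ (p - 1) - ((t : PadicAlgCl p) ^ p) ^ (p - 1)) +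
      (((t : PadicAlgCl p) ^ p) ^ (p - 1) - 1) := by ring
  rw [h6]
  exact (norm_add_le_max' _ _).trans (max_le h3 h5)

end Cyc
end BKGen
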