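import Pool.Agent.Lib.MP_7c08ba_nt.Cyc.Crit
import Pool.Agent.Lib.MP_7c08ba_nt.Cyc.HypFive

/-!
Rigidity of `ℚ(ζ_20) = ℚ(i, ζ_5)` at every place above `5`.
-/

namespace BKGen

open NumberField

/-- The field `ℚ(ζ_20)` is rigid at every place above `5`. -/
theorem rigidFive [Fact (Nat.Prime 5)] {K : Type*} [Field K] [NumberField K]
    [IsCyclotomicExtension {20} ℚ K] (ι : K →+* PadicAlgCl 5) : Rigid 5 K ι := by
  obtain ⟨z, g₁, g₂, v, hz, hι, hg₁, hg₂, hpr, hv, hlev⟩ := Cyc.Five.hyp ι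
  exact Cyc.rigid_of_levels (by norm_num) ι hz hι Cyc.Five.class_five Cyc.Five.rank_five g₁ g₂
    hg₁ hg₂ hpr v hv hlev

end BKGen
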